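import Mathlib

noncomputable section

namespace Pool.Agent.Helper190_CoarseTwo

/-- the ring `R[x,y]/(x²,y²)`, with basis `1, x, y, xy` -/
@[ext] structure D2 (R : Type) where
  c0 : R
  c1 : R
  c2 : R
  c3 : R

namespace D2
variable {R : Type} [CommRing R]

instance : Zero (D2 R) := ⟨⟨0, 0, 0, 0⟩⟩
instance : One (D2 R) := ⟨⟨1, 0, 0, 0⟩⟩
instance : Add (D2 R) := ⟨fun u v => ⟨u.c0 + v.c0, u.c1 + v.c1, u.c2 + v.c2, u.c3 + v.c3⟩⟩
instance : Neg (D2 R) := ⟨fun u => ⟨-u.c0, -u.c1, -u.c2, -u.c3⟩⟩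
instance : Mul (D2 R) := ⟨fun u v => ⟨u.c0 * v.c0, u.c0 * v.c1 + u.c1 * v.c0,
  u.c0 * v.c2 + u.c2 * v.c0, u.c0 * v.c3 + u.c1 * v.c2 + u.c2 * v.c1 + u.c3 * v.c0⟩⟩

@[simp] lemma zero_c0 : (0 : D2 R).c0 = 0 := rfl
@[simp] lemma zero_c1 : (0 : D2 R).c1 = 0 := rfl
@[simp] lemma zero_c2 : (0 : D2 R).c2 = 0 := rfl
@[simp] lemma zero_c3 : (0 : D2 R).c3 = 0 := rfl
@[simp] lemma one_c0 : (1 : D2 R).c0 = 1 := rfl
@[simp] lemma one_c1 : (1 : D2 R).c1 = 0 := rfl
@[simp] lemma one_c2 : (1 : D2 R).c2 = 0 := rfl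
@[simp] lemma one_c3 : (1 : D2 R).c3 = 0 := rfl
@[simp] lemma add_c0 (u v : D2 R) : (u + v).c0 = u.c0 + v.c0 := rfl
@[simp] lemma add_c1 (u v : D2 R) : (u + v).c1 = u.c1 + v.c1 := rfl
@[simp] lemma add_c2 (u v : D2 R) : (u + v).c2 = u.c2 + v.c2 := rfl
@[simp] lemma add_c3 (u v : D2 R) : (u + v).c3 = u.c3 + v.c3 := rfl
@[simp] lemma neg_c0 (u : D2 R) : (-u).c0 = -u.c0 := rfl
@[simp] lemma neg_c1 (u : D2 R) : (-u).c1 = -u.c1 := rfl
@[simp] lemma neg_c2 (u : D2 R) : (-u).c2 = -u.c2 := rfl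
@[simp] lemma neg_c3 (u : D2 R) : (-u).c3 = -u.c3 := rfl
@[simp] lemma mul_c0 (u v : D2 R) : (u * v).c0 = u.c0 * v.c0 := rfl
@[simp] lemma mul_c1 (u v : D2 R) : (u * v).c1 = u.c0 * v.c1 + u.c1 * v.c0 := rfl
@[simp] lemma mul_c2 (u v : D2 R) : (u * v).c2 = u.c0 * v.c2 + u.c2 * v.c0 := rfl
@[simp] lemma mul_c3 (u v : D2 R) : (u * v).c3 =
  u.c0 * v.c3 + u.c1 * v.c2 + u.c2 * v.c1 + u.c3 * v.c0 := rfl

instance : CommRing (D2 R) :=
  CommRing.ofMinimalAxioms
    (by intro a b c; ext <;> simp only [add_c0, add_c1, add_c2, add_c3] <;> ring)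
    (by intro a; ext <;> simp)
    (by intro a; ext <;> simp)
    (by intro a b c; ext <;> simp only [mul_c0, mul_c1, mul_c2, mul_c3] <;> ring)
    (by intro a b; ext <;> simp only [mul_c0, mul_c1, mul_c2, mul_c3] <;> ring)
    (by intro a; ext <;> simp)
    (by intro a b c; ext <;> simp only [mul_c0, mul_c1, mul_c2, mul_c3, add_c0, add_c1, add_c2,
      add_c3] <;> ring)

/-- constants -/
def C (R : Type) [CommRing R] : R →+* D2 R where
  toFun r := ⟨r, 0, 0, 0⟩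
  map_one' := rfl
  map_zero' := rfl
  map_add' x y := by ext <;> simp
  map_mul' x y := by ext <;> simp

/-- functoriality -/
def map {A B : Type} [CommRing A] [CommRing B] (f : A →+* B) : D2 A →+* D2 B where
  toFun u := ⟨f u.c0, f u.c1, f u.c2, f u.c3⟩
  map_one' := by ext <;> simp
  map_zero' := by ext <;> simp
  map_add' x y := by ext <;> simp
  map_mul' x y := by ext <;> simp

/-- the element `x` -/
def x (R : Type) [CommRing R] : D2 R := ⟨0, 1, 0, 0⟩
/-- the element `y` -/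
def y (R : Type) [CommRing R] : D2 R := ⟨0, 0, 1, 0⟩

lemma x_sq (R : Type) [CommRing R] : x R * x R = 0 := by ext <;> simp [x]
lemma y_sq (R : Type) [CommRing R] : y R * y R = 0 := by ext <;> simp [y]
lemma xy_ne (R : Type) [CommRing R] [Nontrivial R] : x R * y R ≠ 0 := by
  intro h
  have := congrArg c3 h
  simp [x, y] at this

lemma map_x {A B : Type} [CommRing A] [CommRing B] (f : A →+* B) : map f (x A) = x B := by
  ext <;> simp [map, x]
lemma map_y {A B : Type} [CommRing A] [CommRing B] (f : A →+* B) : map f (y A) = y B := by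
  ext <;> simp [map, y]

lemma map_injective {A B : Type} [CommRing A] [CommRing B] {f : A →+* B}
    (hf : Function.Injective f) : Function.Injective (map f) := by
  intro u v h
  ext
  · exact hf (congrArg c0 h)
  · exact hf (congrArg c1 h)
  · exact hf (congrArg c2 h)
  · exact hf (congrArg c3 h)

lemma two_eq {R : Type} [CommRing R] (h : (2 : R) = 0) : (2 : D2 R) = 0 := by
  have e1 := congrArg (C R) h
  rw [map_ofNat, map_zero] at e1
  exact e1

lemma two_unit {R : Type} [CommRing R] (h : IsUnit (2 : R)) : IsUnit (2 : D2 R) := by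
  have e1 := h.map (C R)
  rw [map_ofNat] at e1
  exact e1

end D2

end Pool.Agent.Helper190_CoarseTwo
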