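import Pool.Agent.Helper190_CoarseTwo.Core

open MvPolynomial CategoryTheory

noncomputable section

namespace Pool.Agent.Helper190_CoarseTwo

/-- rings in which `2 = 0` -/
def CharTwo : ObjectProperty CommRingCat.{0} := fun R => (2 : R) = 0

/-- A functor of points with closed diagonal (for instance a separated algebraic space). -/
def ClosedDiagonal (M : CommRingCat.{0} ⥤ Type) : Prop :=
  ∀ (R : CommRingCat.{0}) (x y : M.obj R), ∃ I : Ideal R, ∀ (S : CommRingCat.{0}) (f : R ⟶ S),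
    M.map f x = M.map f y ↔ ∀ r ∈ I, f r = 0

section
variable {m : ℕ} {P : ∀ (k : Type) [Field k], MvPolynomial (Fin 4) k →
    MvPolynomial (Fin 4) k → Prop}

/-- `fbar` as a natural function on families in characteristic two -/
def fnat (m : ℕ) (P : ∀ (k : Type) [Field k], MvPolynomial (Fin 4) k →
    MvPolynomial (Fin 4) k → Prop) :
    CharTwo.ι ⋙ Fam m P ⟶ CharTwo.ι ⋙ forget CommRingCat.{0} where
  app R := TypeCat.ofHom (fun X : Surf m P R.obj => (fbar m X.a X.b : R.obj))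
  naturality R S f := by
    ext X
    exact Ok.fbar_map f.hom.hom (Surf.ok X)

lemma map_nil {A k : Type} [CommRing A] [Field k] (f : A →+* k) {x : A} (h : x * x = 0) :
    f x = 0 := by
  have := congrArg f h
  rw [map_mul, map_zero, mul_self_eq_zero] at this
  exact this

/-- the first family -/
def fam1 {A : Type} [CommRing A] (hm : 2 ≤ m) (x y : A) (hx : x * x = 0) (hy : y * y = 0)
    (hA : ∀ (k : Type) [Field k] [IsAlgClosed k] (_ : A →+* k), P k 0 (bz k m)) :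
    Surf m P A where
  a := az m x y
  b := bz A m
  ha := az_hom hm _ _
  hb := bz_hom hm
  h00 := by rw [(bz_eval hm).1]; exact isUnit_one
  h10 := by rw [(bz_eval hm).2.1]; exact isUnit_one
  h01 := by rw [(bz_eval hm).2.2.1]; exact isUnit_one
  h11 := by rw [(bz_eval hm).2.2.2]; exact isUnit_one
  fib k _ _ f := by
    have h0 : (az m 0 0 : MvPolynomial (Fin 4) k) = 0 := by simp [az]
    rw [map_az, map_bz, map_nil f hx, map_nil f hy, h0]
    exact hA k f

/-- the second family -/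
def fam2 {A : Type} [CommRing A] (hm : 2 ≤ m) (x y : A) (hx : x * x = 0) (hy : y * y = 0)
    (hA : ∀ (k : Type) [Field k] [IsAlgClosed k] (_ : A →+* k), P k 0 (bz k m)) :
    Surf m P A where
  a := az' m x y
  b := bz A m
  ha := az'_hom hm _ _
  hb := bz_hom hm
  h00 := by rw [(bz_eval hm).1]; exact isUnit_one
  h10 := by rw [(bz_eval hm).2.1]; exact isUnit_one
  h01 := by rw [(bz_eval hm).2.2.1]; exact isUnit_one
  h11 := by rw [(bz_eval hm).2.2.2]; exact isUnit_one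
  fib k _ _ f := by
    have h0 : (az' m 0 0 : MvPolynomial (Fin 4) k) = 0 := by simp [az']
    rw [map_az', map_bz, map_nil f hx, map_nil f hy, h0]
    exact hA k f

lemma fam1_baseChange {A B : Type} [CommRing A] [CommRing B] (hm : 2 ≤ m) {x y : A} {x' y' : B}
    (hx : x * x = 0) (hy : y * y = 0) (hx' : x' * x' = 0) (hy' : y' * y' = 0)
    (hA : ∀ (k : Type) [Field k] [IsAlgClosed k] (_ : A →+* k), P k 0 (bz k m))
    (hB : ∀ (k : Type) [Field k] [IsAlgClosed k] (_ : B →+* k), P k 0 (bz k m)) (f : A →+* B)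
    (h1 : f x = x') (h2 : f y = y') :
    (fam1 hm x y hx hy hA).baseChange f = fam1 hm x' y' hx' hy' hB := by
  subst h1 h2
  exact Surf.ext' (map_az f m x y) (map_bz f m)

lemma fam2_baseChange {A B : Type} [CommRing A] [CommRing B] (hm : 2 ≤ m) {x y : A} {x' y' : B}
    (hx : x * x = 0) (hy : y * y = 0) (hx' : x' * x' = 0) (hy' : y' * y' = 0)
    (hA : ∀ (k : Type) [Field k] [IsAlgClosed k] (_ : A →+* k), P k 0 (bz k m))
    (hB : ∀ (k : Type) [Field k] [IsAlgClosed k] (_ : B →+* k), P k 0 (bz k m)) (f : A →+* B)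
    (h1 : f x = x') (h2 : f y = y') :
    (fam2 hm x y hx hy hA).baseChange f = fam2 hm x' y' hx' hy' hB := by
  subst h1 h2
  exact Surf.ext' (map_az' f m x y) (map_bz f m)

/-- the abstract argument -/
theorem core (hm : 1 ≤ m)
    (M : CommRingCat.{0} ⥤ Type) (hM : ClosedDiagonal M) (π : Fam m P ⟶ M)
    (hπ : ∀ (R : CommRingCat.{0}) (X Y : Surf m P R), GrIso m X Y → π.app R X = π.app R Y)
    (M' : CharTwo.FullSubcategory ⥤ Type) (π' : CharTwo.ι ⋙ Fam m P ⟶ M')
    (hπ' : ∀ f : CharTwo.ι ⋙ Fam m P ⟶ CharTwo.ι ⋙ forget CommRingCat.{0},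
      (∀ (R : CharTwo.FullSubcategory) (X Y : Surf m P R.obj), GrIso m X Y →
        f.app R X = f.app R Y) →
      ∀ (R : CharTwo.FullSubcategory) (X Y : Surf m P R.obj), π'.app R X = π'.app R Y →
        f.app R X = f.app R Y)
    (φ : M' ⟶ CharTwo.ι ⋙ M) (hφ : π' ≫ φ = Functor.whiskerLeft CharTwo.ι π)
    (L LQ LF : CommRingCat.{0}) (fQ : L ⟶ LQ) (hinj : Function.Injective fQ.hom)
    (fF : L ⟶ LF) (hLF : (2 : LF) = 0) (X1 X2 : Surf m P L) (Y1 Y2 : Surf m P LQ)
    (Z1 Z2 : Surf m P LF) (h1Q : X1.baseChange fQ.hom = Y1) (h2Q : X2.baseChange fQ.hom = Y2)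
    (h1F : X1.baseChange fF.hom = Z1) (h2F : X2.baseChange fF.hom = Z2)
    (hisoQ : GrIso m Y1 Y2) (hne : fbar m Z1.a Z1.b ≠ fbar m Z2.a Z2.b) : ¬ Mono φ := by
  intro hmono
  have nat : ∀ {R S : CommRingCat.{0}} (f : R ⟶ S) (X : Surf m P R),
      M.map f (π.app R X) = π.app S (X.baseChange f.hom) := by
    intro R S f X
    exact (NatTrans.naturality_apply π f X).symm
  have hQeq : M.map fQ (π.app L X1) = M.map fQ (π.app L X2) := by
    rw [nat, nat, h1Q, h2Q]
    exact hπ LQ _ _ hisoQ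
  obtain ⟨I, hI⟩ := hM L (π.app L X1) (π.app L X2)
  have hI0 := (hI LQ fQ).mp hQeq
  have hI00 : ∀ r ∈ I, r = 0 := by
    intro r hr
    apply hinj
    rw [map_zero]
    exact hI0 r hr
  have hLeq : M.map fF (π.app L X1) = M.map fF (π.app L X2) := by
    rw [hI]
    intro r hr
    rw [hI00 r hr, map_zero]
  rw [nat, nat, h1F, h2F] at hLeq
  let LF' : CharTwo.FullSubcategory := ⟨LF, hLF⟩
  have hφ1 : ∀ X : Surf m P LF, φ.app LF' (π'.app LF' X) = π.app LF X := by
    intro X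
    have := congrArg (fun t => t.app LF') hφ
    exact congrArg (fun t => t X) this
  have hmono' : Mono (φ.app LF') := inferInstance
  have hinj' := (mono_iff_injective (φ.app LF')).mp hmono'
  have heq : π'.app LF' Z1 = π'.app LF' Z2 := by
    apply hinj'
    rw [hφ1, hφ1]
    exact hLeq
  have hf := hπ' (fnat m P) (by
    intro R X Y ⟨θ, ψ, h⟩
    exact fbar_expl hm R.property X.ok Y.ok (expl_of_iso hm θ ψ h)) LF' _ _ heq
  exact hne hf

lemma char_cases {k : Type} [Field k] (f : ℤ_[2] →+* k) : CharZero k ∨ CharP k 2 := by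
  obtain ⟨p, hp⟩ := CharP.exists k
  rcases CharP.char_is_prime_or_zero k p with hprime | rfl
  · right
    by_cases h2 : p = 2
    · subst h2; exact hp
    · exfalso
      have hu : IsUnit ((p : ℕ) : ℤ_[2]) := by
        rw [PadicInt.isUnit_iff]
        rw [show ‖((p : ℕ) : ℤ_[2])‖ = ‖((p : ℤ) : ℤ_[2])‖ by push_cast; rfl]
        by_contra hne
        have hlt : ‖((p : ℤ) : ℤ_[2])‖ < 1 := lt_of_le_of_ne (PadicInt.norm_le_one _) hne
        rw [PadicInt.norm_int_lt_one_iff_dvd] at hlt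
        have h2p : 2 ∣ p := by exact_mod_cast hlt
        exact h2 ((Nat.prime_dvd_prime_iff_eq Nat.prime_two hprime).mp h2p).symm
      have := hu.map f
      rw [map_natCast, CharP.cast_eq_zero] at this
      exact not_isUnit_zero this
  · left
    exact CharP.charP_to_charZero k

lemma unit_two_Q : IsUnit (2 : ℚ_[2]) := IsUnit.mk0 _ (by norm_num)

lemma iso_Q {R : Type} [CommRing R] (h2 : IsUnit (2 : R)) (hm : 2 ≤ m) (x y : R) (hx : x * x = 0)
    (hy : y * y = 0)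
    (hA : ∀ (k : Type) [Field k] [IsAlgClosed k] (_ : R →+* k), P k 0 (bz k m)) :
    GrIso m (fam1 hm x y hx hy hA) (fam2 hm x y hx hy hA) := by
  apply exists_iso_of_sq h2
  · exact az_hom hm _ _
  · exact az'_hom hm _ _
  · exact az_sq hm hx hy

lemma fb_ne {R : Type} [CommRing R] (hm : 2 ≤ m) (x y : R) (hx : x * x = 0)
    (hy : y * y = 0) (hxy : x * y ≠ 0)
    (hA : ∀ (k : Type) [Field k] [IsAlgClosed k] (_ : R →+* k), P k 0 (bz k m)) :
    fbar m (fam1 hm x y hx hy hA).a (fam1 hm x y hx hy hA).b ≠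
      fbar m (fam2 hm x y hx hy hA).a (fam2 hm x y hx hy hA).b := by
  change fbar m (az m x y) (bz R m) ≠ fbar m (az' m x y) (bz R m)
  rw [fbar_az hm, fbar_az' hm]
  exact hxy

/-- The comparison morphism between coarse spaces is not a monomorphism. -/
theorem main (hm : 2 ≤ m)
    (hP : ∀ (k : Type) [Field k] [IsAlgClosed k], (CharZero k ∨ CharP k 2) → P k 0 (bz k m))
    (M : CommRingCat.{0} ⥤ Type) (hM : ClosedDiagonal M) (π : Fam m P ⟶ M)
    (hπ : ∀ (R : CommRingCat.{0}) (X Y : Surf m P R), GrIso m X Y → π.app R X = π.app R Y)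
    (M' : CharTwo.FullSubcategory ⥤ Type) (π' : CharTwo.ι ⋙ Fam m P ⟶ M')
    (hπ' : ∀ f : CharTwo.ι ⋙ Fam m P ⟶ CharTwo.ι ⋙ forget CommRingCat.{0},
      (∀ (R : CharTwo.FullSubcategory) (X Y : Surf m P R.obj), GrIso m X Y →
        f.app R X = f.app R Y) →
      ∀ (R : CharTwo.FullSubcategory) (X Y : Surf m P R.obj), π'.app R X = π'.app R Y →
        f.app R X = f.app R Y)
    (φ : M' ⟶ CharTwo.ι ⋙ M) (hφ : π' ≫ φ = Functor.whiskerLeft CharTwo.ι π) : ¬ Mono φ := by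
  have hZ2 : ∀ (k : Type) [Field k] [IsAlgClosed k] (_ : D2 ℤ_[2] →+* k), P k 0 (bz k m) :=
    fun k _ _ f => hP k (char_cases (f.comp (D2.C _)))
  have hQ2 : ∀ (k : Type) [Field k] [IsAlgClosed k] (_ : D2 ℚ_[2] →+* k), P k 0 (bz k m) :=
    fun k _ _ f => hP k (char_cases ((f.comp (D2.C _)).comp (algebraMap ℤ_[2] ℚ_[2])))
  have hF2 : ∀ (k : Type) [Field k] [IsAlgClosed k] (_ : D2 (ZMod 2) →+* k), P k 0 (bz k m) :=
    fun k _ _ f => hP k (char_cases ((f.comp (D2.C _)).comp PadicInt.toZMod))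
  refine core (by omega) M hM π hπ M' π' hπ' φ hφ (CommRingCat.of (D2 ℤ_[2]))
    (CommRingCat.of (D2 ℚ_[2])) (CommRingCat.of (D2 (ZMod 2)))
    (CommRingCat.ofHom (D2.map (algebraMap ℤ_[2] ℚ_[2])))
    (D2.map_injective (IsFractionRing.injective ℤ_[2] ℚ_[2]))
    (CommRingCat.ofHom (D2.map PadicInt.toZMod)) (D2.two_eq (by decide))
    (fam1 hm (D2.x _) (D2.y _) (D2.x_sq _) (D2.y_sq _) hZ2)
    (fam2 hm (D2.x _) (D2.y _) (D2.x_sq _) (D2.y_sq _) hZ2)
    (fam1 hm (D2.x _) (D2.y _) (D2.x_sq _) (D2.y_sq _) hQ2)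
    (fam2 hm (D2.x _) (D2.y _) (D2.x_sq _) (D2.y_sq _) hQ2)
    (fam1 hm (D2.x _) (D2.y _) (D2.x_sq _) (D2.y_sq _) hF2)
    (fam2 hm (D2.x _) (D2.y _) (D2.x_sq _) (D2.y_sq _) hF2) ?_ ?_ ?_ ?_ ?_ ?_
  · exact fam1_baseChange hm _ _ _ _ _ _ _ (D2.map_x _) (D2.map_y _)
  · exact fam2_baseChange hm _ _ _ _ _ _ _ (D2.map_x _) (D2.map_y _)
  · exact fam1_baseChange hm _ _ _ _ _ _ _ (D2.map_x _) (D2.map_y _)
  · exact fam2_baseChange hm _ _ _ _ _ _ _ (D2.map_x _) (D2.map_y _)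
  · exact iso_Q (D2.two_unit unit_two_Q) hm _ _ _ _ _
  · exact fb_ne hm _ _ _ _ (D2.xy_ne _) _

end

end Pool.Agent.Helper190_CoarseTwo
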