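import Pool.Agent.Helper190_CoarseTwo.Inv
import Pool.Agent.Helper190_CoarseTwo.D2

open MvPolynomial

noncomputable section

namespace Pool.Agent.Helper190_CoarseTwo

variable (R : Type) [CommRing R]

/-! ### the polynomials -/

/-- the form `b₀` -/
def bz (m : ℕ) : MvPolynomial (Fin 4) R :=
  monomial (ex (4 * m) 0 (4 * m) 0) 1 + monomial (ex 0 (4 * m) (4 * m) 0) 1 +
  monomial (ex (4 * m) 0 0 (4 * m)) 1 + monomial (ex 0 (4 * m) 0 (4 * m)) 1 +
  monomial (ex (4 * m - 3) 3 (4 * m - 1) 1) 1 + monomial (ex (4 * m - 1) 1 (4 * m - 3) 3) 1 +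
  monomial (ex 1 (4 * m - 1) 1 (4 * m - 1)) 1

variable {R}

/-- the first trace form -/
def az (m : ℕ) (x y : R) : MvPolynomial (Fin 4) R :=
  monomial (ex (m - 1) (m + 1) m m) x + monomial (ex (m + 1) (m - 1) m m) y

/-- the second trace form -/
def az' (m : ℕ) (x y : R) : MvPolynomial (Fin 4) R :=
  monomial (ex (m - 1) (m + 1) (m - 2) (m + 2)) x +
    monomial (ex (m + 1) (m - 1) (m + 2) (m - 2)) y

lemma hom_monomial {e₀ e₁ e₂ e₃ : ℕ} {p q : ℤ} {ε : ZMod 2} (r : R)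
    (h1 : (e₀ : ℤ) + e₁ = p) (h2 : (e₂ : ℤ) + e₃ = q) (h3 : (e₁ : ZMod 2) + e₃ = ε) :
    (monomial (ex e₀ e₁ e₂ e₃) r).IsWeightedHomogeneous wt (p, q, ε) := by
  apply isWeightedHomogeneous_monomial
  rw [weight_wt]
  simp [h1, h2, h3]

lemma zmod2_eq {n : ℕ} (h : n % 2 = 0) : (n : ZMod 2) = 0 := by
  obtain ⟨k, rfl⟩ := Nat.dvd_of_mod_eq_zero h
  exact two_mul_zmod k

lemma zmod2_eq' {n : ℕ} (h : n % 2 = 1) : (n : ZMod 2) = 1 := by
  have : n = 2 * (n / 2) + 1 := by omega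
  rw [this, Nat.cast_add, two_mul_zmod]; simp

lemma bz_hom {m : ℕ} (hm : 2 ≤ m) : (bz R m).IsWeightedHomogeneous wt (zdeg m + zdeg m) := by
  rw [zdeg_NN]
  have z : ∀ e f : ℕ, (e + f) % 2 = 0 → (e : ZMod 2) + f = 0 := by
    intro e f h; rw [← Nat.cast_add]; exact zmod2_eq h
  simp only [bz]
  refine ((((((?_ : IsWeightedHomogeneous _ _ _).add ?_).add ?_).add ?_).add ?_).add ?_).add ?_ <;>
    refine hom_monomial _ (by omega) (by omega) (z _ _ (by omega))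

lemma az_hom {m : ℕ} (hm : 2 ≤ m) (x y : R) : (az m x y).IsWeightedHomogeneous wt (zdeg m) := by
  rw [zdeg_N]
  have z : ∀ e f : ℕ, (e + f) % 2 = 1 → (e : ZMod 2) + f = 1 := by
    intro e f h; rw [← Nat.cast_add]; exact zmod2_eq' h
  simp only [az]
  refine (?_ : IsWeightedHomogeneous _ _ _).add ?_ <;>
    refine hom_monomial _ (by omega) (by omega) (z _ _ (by omega))

lemma az'_hom {m : ℕ} (hm : 2 ≤ m) (x y : R) : (az' m x y).IsWeightedHomogeneous wt (zdeg m) := by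
  rw [zdeg_N]
  have z : ∀ e f : ℕ, (e + f) % 2 = 1 → (e : ZMod 2) + f = 1 := by
    intro e f h; rw [← Nat.cast_add]; exact zmod2_eq' h
  simp only [az']
  refine (?_ : IsWeightedHomogeneous _ _ _).add ?_ <;>
    refine hom_monomial _ (by omega) (by omega) (z _ _ (by omega))

lemma eval_mono (v : Fin 4 → R) (e₀ e₁ e₂ e₃ : ℕ) (r : R) :
    eval v (monomial (ex e₀ e₁ e₂ e₃) r) =
      r * (v 0 ^ e₀ * v 1 ^ e₁ * v 2 ^ e₂ * v 3 ^ e₃) := by
  rw [eval_monomial, Finsupp.prod_fintype _ _ (by simp), Fin.prod_univ_four]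
  simp

lemma bz_eval {m : ℕ} (hm : 2 ≤ m) :
    eval ![1, 0, 1, 0] (bz R m) = 1 ∧ eval ![0, 1, 1, 0] (bz R m) = 1 ∧
    eval ![1, 0, 0, 1] (bz R m) = 1 ∧ eval ![0, 1, 0, 1] (bz R m) = 1 := by
  have h1 : 4 * m ≠ 0 := by omega
  have h2 : 4 * m - 3 ≠ 0 := by omega
  have h3 : 4 * m - 1 ≠ 0 := by omega
  simp only [bz, map_add, eval_mono]
  refine ⟨?_, ?_, ?_, ?_⟩ <;> simp [h1, h2, h3]

lemma ok_bz {m : ℕ} (hm : 2 ≤ m) {a : MvPolynomial (Fin 4) R}
    (ha : a.IsWeightedHomogeneous wt (zdeg m)) : Ok m a (bz R m) := by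
  obtain ⟨e1, e2, e3, e4⟩ := bz_eval (R := R) hm
  exact ⟨ha, bz_hom hm, by rw [e1]; exact isUnit_one, by rw [e2]; exact isUnit_one,
    by rw [e3]; exact isUnit_one, by rw [e4]; exact isUnit_one⟩

lemma map_bz {S : Type} [CommRing S] (f : R →+* S) (m : ℕ) : map f (bz R m) = bz S m := by
  simp [bz]

lemma map_az {S : Type} [CommRing S] (f : R →+* S) (m : ℕ) (x y : R) :
    map f (az m x y) = az m (f x) (f y) := by
  simp [az]

lemma map_az' {S : Type} [CommRing S] (f : R →+* S) (m : ℕ) (x y : R) :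
    map f (az' m x y) = az' m (f x) (f y) := by
  simp [az']

lemma az_sq {m : ℕ} (hm : 2 ≤ m) {x y : R} (hx : x * x = 0) (hy : y * y = 0) :
    az m x y ^ 2 = az' m x y ^ 2 := by
  have h1 : ∀ d : Fin 4 →₀ ℕ, monomial (d + d) (x * x) = (0 : MvPolynomial (Fin 4) R) := by
    intro d; rw [hx, monomial_zero]
  have h2 : ∀ d : Fin 4 →₀ ℕ, monomial (d + d) (y * y) = (0 : MvPolynomial (Fin 4) R) := by
    intro d; rw [hy, monomial_zero]
  have e : ex (m - 1) (m + 1) m m + ex (m + 1) (m - 1) m m =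
      ex (m - 1) (m + 1) (m - 2) (m + 2) + ex (m + 1) (m - 1) (m + 2) (m - 2) := by
    apply ext4 <;> simp <;> omega
  simp only [az, az', sq, add_mul, mul_add, monomial_mul, h1, h2]
  rw [add_comm (ex (m + 1) (m - 1) m m) (ex (m - 1) (m + 1) m m),
    add_comm (ex (m + 1) (m - 1) (m + 2) (m - 2)) (ex (m - 1) (m + 1) (m - 2) (m + 2)), e]

end Pool.Agent.Helper190_CoarseTwo
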