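import Pool.Agent.Helper190_CoarseTwo.Iso

open MvPolynomial

noncomputable section

namespace Pool.Agent.Helper190_CoarseTwo

variable {R : Type} [CommRing R]

/-- coefficient of `s₀^{N-i} s₁^i t₀^{N-j} t₁^j` -/
def cf (N i j : ℕ) (a : MvPolynomial (Fin 4) R) : R := coeff (ex (N - i) i (N - j) j) a

lemma coeff_ren (π : Equiv.Perm (Fin 4)) (a : MvPolynomial (Fin 4) R) (d : Fin 4 →₀ ℕ) :
    coeff d (rename π a) = coeff (ex (d (π 0)) (d (π 1)) (d (π 2)) (d (π 3))) a := by
  have h : d = Finsupp.mapDomain π (ex (d (π 0)) (d (π 1)) (d (π 2)) (d (π 3))) := by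
    ext i
    obtain ⟨j, rfl⟩ := π.surjective i
    rw [Finsupp.mapDomain_apply π.injective]
    fin_cases j <;> rfl
  conv_lhs => rw [h]
  rw [coeff_rename_mapDomain _ π.injective]

/-- scaling of the variables -/
def sc (l : Fin 4 → R) : MvPolynomial (Fin 4) R →ₐ[R] MvPolynomial (Fin 4) R :=
  aeval (fun i => C (l i) * X i)

lemma coeff_sc (l : Fin 4 → R) (a : MvPolynomial (Fin 4) R) (d : Fin 4 →₀ ℕ) :
    coeff d (sc l a) = l 0 ^ d 0 * l 1 ^ d 1 * l 2 ^ d 2 * l 3 ^ d 3 * coeff d a := by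
  induction a using MvPolynomial.induction_on' with
  | monomial e r =>
    have h : sc l (monomial e r) =
        monomial e (l 0 ^ e 0 * l 1 ^ e 1 * l 2 ^ e 2 * l 3 ^ e 3 * r) := by
      rw [sc, aeval_monomial, Finsupp.prod_fintype _ _ (by simp), Fin.prod_univ_four]
      rw [monomial_eq, Finsupp.prod_fintype _ _ (by simp), Fin.prod_univ_four]
      simp only [MvPolynomial.algebraMap_eq, map_mul, map_pow, mul_pow]
      ring
    rw [h, coeff_monomial, coeff_monomial]
    split_ifs with hde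
    · rw [hde]
    · rw [mul_zero]
  | add p q hp hq =>
    rw [map_add, coeff_add, coeff_add, hp, hq, mul_add]

lemma cc_eq (π : Equiv.Perm (Fin 4)) (l : Fin 4 → R) (a : MvPolynomial (Fin 4) R) :
    cc π l a = rename π (sc l a) := by
  have : cc π l = (rename π).comp (sc l) := by
    apply MvPolynomial.algHom_ext
    intro i
    simp [cc, sc]
  rw [this]; rfl

lemma rename_sc (π : Equiv.Perm (Fin 4)) (l : Fin 4 → R) (a : MvPolynomial (Fin 4) R) :
    rename π (sc l a) = sc (fun i => l (π⁻¹ i)) (rename π a) := by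
  have : (rename π).comp (sc l) = (sc (fun i => l (π⁻¹ i))).comp (rename π) := by
    apply MvPolynomial.algHom_ext
    intro i
    have e0 : π⁻¹ (π i) = i := by simp
    simp only [sc, AlgHom.comp_apply, aeval_X, map_mul, rename_C, rename_X, e0]
  exact congrArg (fun f => f a) this

/-- dehomogenization -/
def dh : MvPolynomial (Fin 4) R →ₐ[R] Polynomial (Polynomial R) :=
  aeval ![1, Polynomial.C Polynomial.X, 1, Polynomial.X]

lemma coeff_dh_monomial (d : Fin 4 →₀ ℕ) (r : R) (i j : ℕ) :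
    ((dh (monomial d r)).coeff j).coeff i = if d 1 = i ∧ d 3 = j then r else 0 := by
  have h : dh (monomial d r) = Polynomial.C (Polynomial.C r * Polynomial.X ^ d 1) *
      Polynomial.X ^ d 3 := by
    rw [dh, aeval_monomial, Finsupp.prod_fintype _ _ (by simp), Fin.prod_univ_four]
    simp only [Matrix.cons_val_zero, Matrix.cons_val_one, Matrix.cons_val, one_pow, one_mul,
      mul_one, map_mul, map_pow]
    rw [mul_assoc]
    rfl
  rw [h, Polynomial.coeff_C_mul_X_pow]
  split_ifs with h1 h2 h2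
  · rw [Polynomial.coeff_C_mul_X_pow, if_pos h2.1.symm]
  · rw [Polynomial.coeff_C_mul_X_pow, if_neg]
    intro h3; exact h2 ⟨h3.symm, h1.symm⟩
  · exact absurd h2.2.symm h1
  · simp

lemma cf_eq_dh {N : ℕ} {a : MvPolynomial (Fin 4) R}
    (ha : ∀ d, coeff d a ≠ 0 → d 0 + d 1 = N ∧ d 2 + d 3 = N) {i j : ℕ} (hi : i ≤ N)
    (hj : j ≤ N) : cf N i j a = ((dh a).coeff j).coeff i := by
  conv_rhs => rw [← support_sum_monomial_coeff a]
  rw [map_sum, Polynomial.finsetSum_coeff, Polynomial.finsetSum_coeff]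
  simp_rw [coeff_dh_monomial]
  rw [Finset.sum_eq_single (ex (N - i) i (N - j) j)]
  · simp [cf]
  · intro d hd hne
    rw [if_neg]
    rintro ⟨h1, h3⟩
    obtain ⟨h4, h5⟩ := ha d (mem_support_iff.mp hd)
    apply hne
    apply ext4 <;> simp <;> omega
  · intro h
    rw [notMem_support_iff.mp h]
    simp

lemma hom_N {a : MvPolynomial (Fin 4) R} {N : ℕ} {ε : ZMod 2}
    (ha : a.IsWeightedHomogeneous wt ((N : ℤ), (N : ℤ), ε)) :
    ∀ d, coeff d a ≠ 0 → d 0 + d 1 = N ∧ d 2 + d 3 = N := by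
  intro d hd
  obtain ⟨h1, h2, h3⟩ := hom_iff.mp ha d hd
  omega

lemma cf_parity {a : MvPolynomial (Fin 4) R} {N : ℕ} {ε : ZMod 2}
    (ha : a.IsWeightedHomogeneous wt ((N : ℤ), (N : ℤ), ε)) {i j : ℕ}
    (hij : ((i : ZMod 2) + j) ≠ ε) : cf N i j a = 0 := by
  by_contra h
  obtain ⟨h1, h2, h3⟩ := hom_iff.mp ha _ h
  exact hij h3

lemma cf_00 {a g : MvPolynomial (Fin 4) R} {N : ℕ}
    (ha : a.IsWeightedHomogeneous wt ((N : ℤ), (N : ℤ), 1))
    (hg : g.IsWeightedHomogeneous wt ((N : ℤ), (N : ℤ), 1)) (hN : 2 ≤ N)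
    (hag : (a * g).IsWeightedHomogeneous wt (((N + N : ℕ) : ℤ), ((N + N : ℕ) : ℤ), 0)) :
    cf (N + N) 1 1 (a * g) = cf N 1 0 a * cf N 0 1 g + cf N 0 1 a * cf N 1 0 g ∧
    cf (N + N) 2 0 (a * g) = cf N 1 0 a * cf N 1 0 g ∧
    cf (N + N) 0 2 (a * g) = cf N 0 1 a * cf N 0 1 g := by
  have a00 := cf_parity ha (i := 0) (j := 0) (by decide)
  have g00 := cf_parity hg (i := 0) (j := 0) (by decide)
  rw [cf_eq_dh (hom_N ha) (by omega) (by omega)] at a00
  rw [cf_eq_dh (hom_N hg) (by omega) (by omega)] at g00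
  rw [cf_eq_dh (hom_N hag) (by omega) (by omega), cf_eq_dh (hom_N hag) (by omega) (by omega),
    cf_eq_dh (hom_N hag) (by omega) (by omega), cf_eq_dh (hom_N ha) (by omega) (by omega),
    cf_eq_dh (hom_N ha) (by omega) (by omega), cf_eq_dh (hom_N hg) (by omega) (by omega),
    cf_eq_dh (hom_N hg) (by omega) (by omega), map_mul]
  generalize dh a = P at *
  generalize dh g = S at *
  refine ⟨?_, ?_, ?_⟩
  · simp only [Polynomial.coeff_mul, Finset.Nat.antidiagonal_succ, Finset.Nat.antidiagonal_zero]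
    simp [a00, g00, Polynomial.coeff_mul, Finset.Nat.antidiagonal_succ]
  · simp only [Polynomial.coeff_mul, Finset.Nat.antidiagonal_zero]
    simp [a00, g00, Polynomial.coeff_mul, Finset.Nat.antidiagonal_succ]
  · simp only [Polynomial.coeff_mul, Finset.Nat.antidiagonal_succ, Finset.Nat.antidiagonal_zero]
    simp [a00, g00, Polynomial.coeff_mul]

end Pool.Agent.Helper190_CoarseTwo
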