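import Pool.Agent.Helper190_CoarseTwo.Functor

open MvPolynomial CategoryTheory

noncomputable section

namespace Pool.Agent.Helper190_CoarseTwo

/-! ### naturality of `fbar` -/

section
variable {R S : Type} [CommRing R] [CommRing S] (f : R →+* S)

lemma cf_map (N i j : ℕ) (a : MvPolynomial (Fin 4) R) : cf N i j (map f a) = f (cf N i j a) := by
  simp [cf, coeff_map]

lemma Wc_map (m : ℕ) (b : MvPolynomial (Fin 4) R) : Wc m (map f b) = f (Wc m b) := by
  rw [Wc, Wc, eval_map_comp f ![1, 0, 1, 0] _ (by intro i; fin_cases i <;> simp),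
    eval_map_comp f ![0, 1, 0, 1] _ (by intro i; fin_cases i <;> simp)]
  simp

lemma Fc_map (m : ℕ) (a b : MvPolynomial (Fin 4) R) :
    Fc m (map f a) (map f b) = f (Fc m a b) := by
  simp [Fc, cf_map]

lemma Gc_map {m : ℕ} (a : MvPolynomial (Fin 4) R) {b : MvPolynomial (Fin 4) R}
    (h : IsUnit (Wc m b)) : Gc m (map f a) (map f b) = f (Gc m a b) := by
  have h' : IsUnit (Wc m (map f b)) := by rw [Wc_map]; exact h.map f
  apply h'.mul_right_cancel
  rw [Gc_mul h', Fc_map, Wc_map, ← map_mul, Gc_mul h, map_pow]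

lemma Ok.fbar_map {m : ℕ} {a b : MvPolynomial (Fin 4) R} (h : Ok m a b) :
    fbar m (map f a) (map f b) = f (fbar m a b) := by
  have hQ : Qa m (map f a) = f (Qa m a) := by simp [Qa, cf_map]
  simp only [fbar, Sc, hQ, ← map_rename]
  rw [Gc_map f _ h.unitW, Gc_map f _ h.ren0.unitW, Gc_map f _ h.ren2.unitW,
    Gc_map f _ h.ren2.ren0.unitW]
  simp
end

lemma Surf.ok {m : ℕ} {P : ∀ (k : Type) [Field k], MvPolynomial (Fin 4) k →
    MvPolynomial (Fin 4) k → Prop} {R : Type} [CommRing R] (X : Surf m P R) : Ok m X.a X.b :=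
  ⟨X.ha, X.hb, X.h00, X.h10, X.h01, X.h11⟩

/-! ### the isomorphism away from two -/

section
variable {R : Type} [CommRing R]

/-- the defining quadratic polynomial -/
abbrev qd (a b : MvPolynomial (Fin 4) R) : Polynomial (MvPolynomial (Fin 4) R) :=
  Polynomial.X ^ 2 + Polynomial.C a * Polynomial.X + Polynomial.C b

lemma tr_cond {a b g a' b' : MvPolynomial (Fin 4) R}
    (ha : a' = a + 2 * g) (hb : b' = b + a * g + g ^ 2) :
    Polynomial.eval₂ (AdjoinRoot.of (qd a' b')) (nf a' b' g 1) (qd a b) = 0 := by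
  have hr := root_sq a' b'
  simp only [nf, map_neg] at hr
  simp only [Polynomial.eval₂_add, Polynomial.eval₂_mul, Polynomial.eval₂_pow,
    Polynomial.eval₂_X, Polynomial.eval₂_C]
  have h2 : AdjoinRoot.of (qd a' b') a' =
      AdjoinRoot.of (qd a' b') a + 2 * AdjoinRoot.of (qd a' b') g := by
    have := congrArg (AdjoinRoot.of (qd a' b')) ha
    simpa only [map_add, map_mul, map_ofNat] using this
  have h3 : AdjoinRoot.of (qd a' b') b' =
      AdjoinRoot.of (qd a' b') b + AdjoinRoot.of (qd a' b') a * AdjoinRoot.of (qd a' b') g +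
        AdjoinRoot.of (qd a' b') g ^ 2 := by
    have := congrArg (AdjoinRoot.of (qd a' b')) hb
    simpa only [map_add, map_mul, map_pow] using this
  simp only [nf, map_one, one_mul]
  generalize AdjoinRoot.of (qd a' b') a' = A' at *
  generalize AdjoinRoot.of (qd a' b') b' = B' at *
  generalize AdjoinRoot.of (qd a' b') a = A at *
  generalize AdjoinRoot.of (qd a' b') b = B at *
  generalize AdjoinRoot.of (qd a' b') g = G at *
  generalize AdjoinRoot.root (qd a' b') = Z at *
  linear_combination hr - Z * h2 - h3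

/-- translation of the fibre coordinate -/
def tr {a b g a' b' : MvPolynomial (Fin 4) R}
    (ha : a' = a + 2 * g) (hb : b' = b + a * g + g ^ 2) : Cox a b →+* Cox a' b' :=
  AdjoinRoot.lift (AdjoinRoot.of (qd a' b')) (nf a' b' g 1) (tr_cond ha hb)

lemma tr_root {a b g a' b' : MvPolynomial (Fin 4) R}
    (ha : a' = a + 2 * g) (hb : b' = b + a * g + g ^ 2) :
    tr ha hb (AdjoinRoot.root _) = nf a' b' g 1 := by
  rw [tr, AdjoinRoot.lift_root]

lemma tr_of {a b g a' b' : MvPolynomial (Fin 4) R}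
    (ha : a' = a + 2 * g) (hb : b' = b + a * g + g ^ 2) (p : MvPolynomial (Fin 4) R) :
    tr ha hb (AdjoinRoot.of _ p) = AdjoinRoot.of _ p := by
  rw [tr, AdjoinRoot.lift_of]

lemma tr_nf {a b g a' b' : MvPolynomial (Fin 4) R}
    (ha : a' = a + 2 * g) (hb : b' = b + a * g + g ^ 2) (p q : MvPolynomial (Fin 4) R) :
    tr ha hb (nf a b p q) = nf a' b' (p + q * g) q := by
  simp only [nf, map_add, map_mul, tr_root, tr_of, map_one, one_mul]
  ring

/-- the isomorphism -/
def trE {a b g a' b' : MvPolynomial (Fin 4) R}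
    (ha : a' = a + 2 * g) (hb : b' = b + a * g + g ^ 2) (ha' : a = a' + 2 * (-g))
    (hb' : b = b' + a' * (-g) + (-g) ^ 2) : Cox a b ≃ₐ[R] Cox a' b' where
  toFun := tr ha hb
  invFun := tr ha' hb'
  left_inv x := by
    obtain ⟨p, q, rfl⟩ := nf_surj a b x
    rw [tr_nf, tr_nf]
    congr 1
    ring
  right_inv x := by
    obtain ⟨p, q, rfl⟩ := nf_surj a' b' x
    rw [tr_nf, tr_nf]
    congr 1
    ring
  map_mul' := map_mul _
  map_add' := map_add _
  commutes' r := tr_of ha hb (C r)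

theorem exists_iso {m : ℕ} {a b g a' b' : MvPolynomial (Fin 4) R}
    (hg : g.IsWeightedHomogeneous wt (zdeg m))
    (ha : a' = a + 2 * g) (hb : b' = b + a * g + g ^ 2) :
    ∃ (θ : (ℤ × ℤ × ZMod 2) ≃+ (ℤ × ℤ × ZMod 2)) (ψ : Cox a b ≃ₐ[R] Cox a' b'),
    ∀ γ x, x ∈ piece m a b γ ↔ ψ x ∈ piece m a' b' (θ γ) := by
  have ha' : a = a' + 2 * (-g) := by rw [ha]; ring
  have hb' : b = b' + a' * (-g) + (-g) ^ 2 := by rw [ha, hb]; ring
  have hng : (-g).IsWeightedHomogeneous wt (zdeg m) := by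
    intro d hd
    apply hg
    rw [coeff_neg] at hd
    exact neg_ne_zero.mp hd
  refine ⟨AddEquiv.refl _, trE ha hb ha' hb', fun γ x => ⟨?_, ?_⟩⟩
  · rintro ⟨p, q, hp, hq, hx⟩
    refine ⟨p + q * g, q, hp.add ?_, hq, ?_⟩
    · have := hq.mul hg
      rwa [sub_add_cancel] at this
    · have hx' : x = nf a b p q := hx
      rw [hx']
      exact tr_nf ha hb p q
  · intro h
    obtain ⟨p, q, hp, hq, hx⟩ := h
    refine ⟨p + q * (-g), q, hp.add ?_, hq, ?_⟩
    · have := hq.mul hng
      rwa [sub_add_cancel] at this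
    · have hx' : trE ha hb ha' hb' x = nf a' b' p q := hx
      have hx2 := congrArg (tr ha' hb') hx'
      rw [tr_nf] at hx2
      change x = nf a b (p + q * (-g)) q
      rw [← hx2]
      exact ((trE ha hb ha' hb').left_inv x).symm

theorem exists_iso_of_sq {m : ℕ} {a b a' : MvPolynomial (Fin 4) R} (h2 : IsUnit (2 : R))
    (ha : a.IsWeightedHomogeneous wt (zdeg m)) (ha' : a'.IsWeightedHomogeneous wt (zdeg m))
    (hsq : a ^ 2 = a' ^ 2) :
    ∃ (θ : (ℤ × ℤ × ZMod 2) ≃+ (ℤ × ℤ × ZMod 2)) (ψ : Cox a b ≃ₐ[R] Cox a' b),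
    ∀ γ x, x ∈ piece m a b γ ↔ ψ x ∈ piece m a' b (θ γ) := by
  obtain ⟨u, hu⟩ := h2.exists_right_inv
  have hu' : (2 : MvPolynomial (Fin 4) R) * C u = 1 := by
    have := congrArg (C (σ := Fin 4)) hu
    rwa [map_mul, map_ofNat, map_one] at this
  refine exists_iso (g := C u * (a' - a)) ?_ ?_ ?_
  · intro d hd
    rw [coeff_C_mul, coeff_sub] at hd
    have h1 := right_ne_zero_of_mul hd
    by_cases h : coeff d a = 0
    · rw [h, sub_zero] at h1
      exact ha' h1
    · exact ha h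
  · linear_combination (-(a' - a)) * hu'
  · linear_combination (C u ^ 2) * hsq + (C u * a * (a' - a)) * hu'

end

end Pool.Agent.Helper190_CoarseTwo
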