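import Mathlib

open MvPolynomial

noncomputable section

namespace Pool.Agent.Helper190_CoarseTwo

/-- The degrees, in the grading group `ℤ × ℤ × ℤ/2`, of the coordinates `s₀, s₁, t₀, t₁`
on `ℙ¹ × ℙ¹`; the last component is the parity under `(s₁, t₁) ↦ (-s₁, -t₁)`. -/
def wt : Fin 4 → ℤ × ℤ × ZMod 2 := ![(1, 0, 0), (1, 0, 1), (0, 1, 0), (0, 1, 1)]

/-- The degree of the trace form `a` and of the fibre coordinate `z`. -/
def zdeg (m : ℕ) : ℤ × ℤ × ZMod 2 := (2 * m, 2 * m, 1)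

/-- The ring `R[s₀,s₁,t₀,t₁][z] / (z² + a z + b)`. -/
abbrev Cox {R : Type} [CommRing R] (a b : MvPolynomial (Fin 4) R) : Type :=
  AdjoinRoot (Polynomial.X ^ 2 + Polynomial.C a * Polynomial.X + Polynomial.C b)

/-- The homogeneous elements of degree `γ` of `Cox a b`, where `z` has degree `zdeg m`. -/
def piece (m : ℕ) {R : Type} [CommRing R] (a b : MvPolynomial (Fin 4) R)
    (γ : ℤ × ℤ × ZMod 2) : Set (Cox a b) :=
  {x | ∃ p q : MvPolynomial (Fin 4) R, p.IsWeightedHomogeneous wt γ ∧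
    q.IsWeightedHomogeneous wt (γ - zdeg m) ∧
    x = AdjoinRoot.of _ p + AdjoinRoot.of _ q * AdjoinRoot.root _}

/-- Families over `Spec R` of surfaces `S = S'/μ₂`, where `S' → ℙ¹ × ℙ¹` is the double cover
`z² + a z + b = 0`, with `a` odd of bidegree `(2m,2m)` and `b` even of bidegree `(4m,4m)`
and `b` a unit at the four torus fixed points, all of whose geometric
fibres lie in a given class `P`. -/
structure Surf (m : ℕ) (P : ∀ (k : Type) [Field k], MvPolynomial (Fin 4) k →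
    MvPolynomial (Fin 4) k → Prop) (R : Type) [CommRing R] where
  a : MvPolynomial (Fin 4) R
  b : MvPolynomial (Fin 4) R
  ha : a.IsWeightedHomogeneous wt (zdeg m)
  hb : b.IsWeightedHomogeneous wt (zdeg m + zdeg m)
  h00 : IsUnit (eval ![1, 0, 1, 0] b)
  h10 : IsUnit (eval ![0, 1, 1, 0] b)
  h01 : IsUnit (eval ![1, 0, 0, 1] b)
  h11 : IsUnit (eval ![0, 1, 0, 1] b)
  fib : ∀ (k : Type) [Field k] [IsAlgClosed k] (f : R →+* k), P k (map f a) (map f b)

/-- Two families are isomorphic if their rings are isomorphic as graded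
`R`-algebras, up to an automorphism `θ` of the grading group. -/
def GrIso (m : ℕ) {P : ∀ (k : Type) [Field k], MvPolynomial (Fin 4) k →
    MvPolynomial (Fin 4) k → Prop} {R : Type} [CommRing R] (X Y : Surf m P R) : Prop :=
  ∃ (θ : (ℤ × ℤ × ZMod 2) ≃+ (ℤ × ℤ × ZMod 2)) (ψ : Cox X.a X.b ≃ₐ[R] Cox Y.a Y.b),
    ∀ γ x, x ∈ piece m X.a X.b γ ↔ ψ x ∈ piece m Y.a Y.b (θ γ)

end Pool.Agent.Helper190_CoarseTwo
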