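import Pool.Agent.Helper190_CoarseTwo.Pair

open MvPolynomial

noncomputable section

namespace Pool.Agent.Helper190_CoarseTwo

variable {R : Type} [CommRing R]

lemma ex_eq_iff {a b c d a' b' c' d' : ℕ} :
    ex a b c d = ex a' b' c' d' ↔ a = a' ∧ b = b' ∧ c = c' ∧ d = d' := by
  constructor
  · intro h
    exact ⟨congrArg (fun e => e 0) h, congrArg (fun e => e 1) h, congrArg (fun e => e 2) h,
      congrArg (fun e => e 3) h⟩
  · rintro ⟨rfl, rfl, rfl, rfl⟩; rfl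

lemma coeff_mono (a b c d a' b' c' d' : ℕ) (r : R) :
    coeff (ex a' b' c' d') (monomial (ex a b c d) r) =
      if a = a' ∧ b = b' ∧ c = c' ∧ d = d' then r else 0 := by
  rw [coeff_monomial]
  simp only [ex_eq_iff]

lemma Qa_az {m : ℕ} (hm : 2 ≤ m) (x y : R) : Qa m (az m x y) = x * y := by
  simp only [Qa, az, cf, coeff_add, coeff_mono]
  simp (disch := omega) only [if_neg]
  simp only [and_true, true_and]
  split_ifs <;> first | (exfalso; omega) | ring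

lemma Qa_az' {m : ℕ} (hm : 2 ≤ m) (x y : R) : Qa m (az' m x y) = 0 := by
  simp only [Qa, az', cf, coeff_add, coeff_mono]
  simp (disch := omega) only [if_neg]
  ring

lemma coeff_bz_corner {m : ℕ} (hm : 2 ≤ m) :
    coeff (ex (4 * m - 1) 1 (4 * m - 1) 1) (bz R m) = 0 ∧
    coeff (ex 1 (4 * m - 1) (4 * m - 1) 1) (bz R m) = 0 ∧
    coeff (ex (4 * m - 1) 1 1 (4 * m - 1)) (bz R m) = 0 ∧
    coeff (ex 1 (4 * m - 1) 1 (4 * m - 1)) (bz R m) = 1 := by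
  simp only [bz, coeff_add, coeff_mono]
  refine ⟨?_, ?_, ?_, ?_⟩ <;> simp (disch := omega) only [if_neg] <;> simp

lemma az_supp {m : ℕ} {x y : R} {d : Fin 4 →₀ ℕ} (h : coeff d (az m x y) ≠ 0) :
    d 2 = m ∧ d 3 = m ∧ (d 0 = m - 1 ∧ d 1 = m + 1 ∨ d 0 = m + 1 ∧ d 1 = m - 1) := by
  by_contra hc
  apply h
  rw [eq_ex d]
  simp only [az, coeff_add, coeff_mono]
  rw [if_neg (by intro h'; apply hc; omega), if_neg (by intro h'; apply hc; omega), add_zero]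

lemma Fc_ren {m : ℕ} (hm : 2 ≤ m) (x y : R) (π : Equiv.Perm (Fin 4))
    (h : π = 1 ∨ π = σ₀ ∨ π = σ₂ ∨ π = σ₀ * σ₂) (b : MvPolynomial (Fin 4) R) :
    Fc m (rename π (az m x y)) b = cf (2 * m + 2 * m) 1 1 b ^ 2 := by
  have h1 : cf (2 * m) 1 0 (rename π (az m x y)) = 0 := by
    by_contra hc
    rw [cf, coeff_ren] at hc
    obtain ⟨k1, k2, k3⟩ := az_supp hc
    simp only [ex_two, ex_three] at k1 k2
    rcases h with rfl | rfl | rfl | rfl
    · change 2 * m - 0 = m at k1; omega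
    · change 2 * m - 0 = m at k1; omega
    · change 2 * m - 0 = m at k2; omega
    · change 2 * m - 0 = m at k2; omega
  have h2 : cf (2 * m) 0 1 (rename π (az m x y)) = 0 := by
    by_contra hc
    rw [cf, coeff_ren] at hc
    obtain ⟨k1, k2, k3⟩ := az_supp hc
    simp only [ex_zero, ex_one] at k3
    rcases h with rfl | rfl | rfl | rfl
    · change (2 * m - 0 = m - 1 ∧ 0 = m + 1 ∨ 2 * m - 0 = m + 1 ∧ 0 = m - 1) at k3; omega
    · change (0 = m - 1 ∧ 2 * m - 0 = m + 1 ∨ 0 = m + 1 ∧ 2 * m - 0 = m - 1) at k3; omega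
    · change (2 * m - 0 = m - 1 ∧ 0 = m + 1 ∨ 2 * m - 0 = m + 1 ∧ 0 = m - 1) at k3; omega
    · change (0 = m - 1 ∧ 2 * m - 0 = m + 1 ∨ 0 = m + 1 ∧ 2 * m - 0 = m - 1) at k3; omega
  simp only [Fc, h1, h2]
  ring

lemma Sc_az {m : ℕ} (hm : 2 ≤ m) (x y : R) : Sc m (az m x y) (bz R m) = 1 := by
  obtain ⟨e1, e2, e3, e4⟩ := bz_eval (R := R) hm
  obtain ⟨c1, c2, c3, c4⟩ := coeff_bz_corner (R := R) hm
  have v1 : (![1, 0, 1, 0] : Fin 4 → R) ∘ Helper190_CoarseTwo.σ₀ = ![0, 1, 1, 0] := by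
    ext i; fin_cases i <;> rfl
  have v2 : (![0, 1, 0, 1] : Fin 4 → R) ∘ Helper190_CoarseTwo.σ₀ = ![1, 0, 0, 1] := by
    ext i; fin_cases i <;> rfl
  have v3 : (![1, 0, 1, 0] : Fin 4 → R) ∘ Helper190_CoarseTwo.σ₂ = ![1, 0, 0, 1] := by
    ext i; fin_cases i <;> rfl
  have v4 : (![0, 1, 0, 1] : Fin 4 → R) ∘ Helper190_CoarseTwo.σ₂ = ![0, 1, 1, 0] := by
    ext i; fin_cases i <;> rfl
  have v5 : (![0, 1, 1, 0] : Fin 4 → R) ∘ Helper190_CoarseTwo.σ₂ = ![0, 1, 0, 1] := by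
    ext i; fin_cases i <;> rfl
  have v6 : (![1, 0, 0, 1] : Fin 4 → R) ∘ Helper190_CoarseTwo.σ₂ = ![1, 0, 1, 0] := by
    ext i; fin_cases i <;> rfl
  have w1 : Wc m (bz R m) = 1 := by simp only [Wc, e1, e4]; ring
  have w2 : Wc m (rename σ₀ (bz R m)) = 1 := by simp only [Wc, eval_ren, v1, v2, e2, e3]; ring
  have w3 : Wc m (rename σ₂ (bz R m)) = 1 := by simp only [Wc, eval_ren, v3, v4, e2, e3]; ring
  have w4 : Wc m (rename σ₀ (rename σ₂ (bz R m))) = 1 := by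
    simp only [Wc, eval_ren, v1, v2, v5, v6, e1, e4]; ring
  have f1 := Fc_ren hm x y 1 (Or.inl rfl) (bz R m)
  have f2 := Fc_ren hm x y σ₀ (Or.inr (Or.inl rfl)) (rename σ₀ (bz R m))
  have f3 := Fc_ren hm x y σ₂ (Or.inr (Or.inr (Or.inl rfl))) (rename σ₂ (bz R m))
  have f4 := Fc_ren hm x y (σ₀ * σ₂) (Or.inr (Or.inr (Or.inr rfl)))
    (rename σ₀ (rename σ₂ (bz R m)))
  have r1 : rename (1 : Equiv.Perm (Fin 4)) (az m x y) = az m x y := by
    have : ((1 : Equiv.Perm (Fin 4)) : Fin 4 → Fin 4) = id := rfl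
    rw [this, rename_id]; rfl
  have r4 : rename (σ₀ * σ₂) (az m x y) = rename σ₀ (rename σ₂ (az m x y)) := by
    rw [rename_rename]; rfl
  rw [r1] at f1
  rw [r4] at f4
  have d1 : 2 * m + 2 * m - 1 = 4 * m - 1 := by omega
  have g1 : cf (2 * m + 2 * m) 1 1 (bz R m) = 0 := by
    rw [cf, d1]; exact c1
  have g2 : cf (2 * m + 2 * m) 1 1 (rename σ₀ (bz R m)) = 0 := by
    rw [cf, d1, coeff_ren]; exact c2
  have g3 : cf (2 * m + 2 * m) 1 1 (rename σ₂ (bz R m)) = 0 := by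
    rw [cf, d1, coeff_ren]; exact c3
  have g4 : cf (2 * m + 2 * m) 1 1 (rename σ₀ (rename σ₂ (bz R m))) = 1 := by
    rw [cf, d1, coeff_ren, coeff_ren]; exact c4
  have hm0 : m ≠ 0 := by omega
  simp only [Sc, Gc, f1, f2, f3, f4, w1, w2, w3, w4, g1, g2, g3, g4]
  simp [hm0]

lemma fbar_az {m : ℕ} (hm : 2 ≤ m) (x y : R) : fbar m (az m x y) (bz R m) = x * y := by
  rw [fbar, Qa_az hm, Sc_az hm, mul_one]

lemma fbar_az' {m : ℕ} (hm : 2 ≤ m) (x y : R) : fbar m (az' m x y) (bz R m) = 0 := by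
  rw [fbar, Qa_az' hm, zero_mul]

end Pool.Agent.Helper190_CoarseTwo
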