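import Pool.Agent.Helper190_CoarseTwo.Coeff

open MvPolynomial

noncomputable section

namespace Pool.Agent.Helper190_CoarseTwo

variable {R : Type} [CommRing R]

/-- the quadratic function of `a` -/
def Qa (m : ℕ) (a : MvPolynomial (Fin 4) R) : R :=
  cf (2 * m) (m + 1) m a * cf (2 * m) (m - 1) m a + cf (2 * m) m (m + 1) a * cf (2 * m) m (m - 1) a

/-- the half discriminant at the corner -/
def Fc (m : ℕ) (a b : MvPolynomial (Fin 4) R) : R :=
  cf (2 * m + 2 * m) 1 1 b ^ 2 + cf (2 * m) 1 0 a * cf (2 * m) 0 1 a * cf (2 * m + 2 * m) 1 1 b +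
    cf (2 * m) 0 1 a ^ 2 * cf (2 * m + 2 * m) 2 0 b + cf (2 * m) 1 0 a ^ 2 * cf (2 * m + 2 * m) 0 2 b

/-- the unit -/
def Wc (m : ℕ) (b : MvPolynomial (Fin 4) R) : R :=
  eval ![1, 0, 1, 0] b ^ (2 * m) * eval ![0, 1, 0, 1] b

/-- the local contribution -/
def Gc (m : ℕ) (a b : MvPolynomial (Fin 4) R) : R := Fc m a b ^ m * Ring.inverse (Wc m b)

/-- the sum of local contributions -/
def Sc (m : ℕ) (a b : MvPolynomial (Fin 4) R) : R :=
  Gc m a b + Gc m (rename (Equiv.swap (0 : Fin 4) 1) a) (rename (Equiv.swap (0 : Fin 4) 1) b) +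
    Gc m (rename (Equiv.swap (2 : Fin 4) 3) a) (rename (Equiv.swap (2 : Fin 4) 3) b) +
    Gc m (rename (Equiv.swap (0 : Fin 4) 1) (rename (Equiv.swap (2 : Fin 4) 3) a))
      (rename (Equiv.swap (0 : Fin 4) 1) (rename (Equiv.swap (2 : Fin 4) 3) b))

/-- the function in characteristic two -/
def fbar (m : ℕ) (a b : MvPolynomial (Fin 4) R) : R := Qa m a * Sc m a b

/-- conditions on `(a, b)` -/
structure Ok (m : ℕ) (a b : MvPolynomial (Fin 4) R) : Prop where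
  ha : a.IsWeightedHomogeneous wt (zdeg m)
  hb : b.IsWeightedHomogeneous wt (zdeg m + zdeg m)
  h00 : IsUnit (eval ![1, 0, 1, 0] b)
  h10 : IsUnit (eval ![0, 1, 1, 0] b)
  h01 : IsUnit (eval ![1, 0, 0, 1] b)
  h11 : IsUnit (eval ![0, 1, 0, 1] b)

lemma zdeg_N (m : ℕ) : zdeg m = (((2 * m : ℕ) : ℤ), ((2 * m : ℕ) : ℤ), 1) := by
  simp [zdeg]

lemma zdeg_NN (m : ℕ) : zdeg m + zdeg m =
    (((2 * m + 2 * m : ℕ) : ℤ), ((2 * m + 2 * m : ℕ) : ℤ), 0) := by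
  rw [zdeg_N]
  refine Prod.ext ?_ (Prod.ext ?_ ?_)
  · push_cast; rfl
  · push_cast; rfl
  · show (1 : ZMod 2) + 1 = 0
    decide

/-- `s₀ ↔ s₁` -/
abbrev σ₀ : Equiv.Perm (Fin 4) := Equiv.swap 0 1
/-- `t₀ ↔ t₁` -/
abbrev σ₂ : Equiv.Perm (Fin 4) := Equiv.swap 2 3
/-- `s ↔ t` -/
abbrev τ : Equiv.Perm (Fin 4) := Equiv.swap 0 2 * Equiv.swap 1 3

/-! ### renaming -/

lemma two_mul_zmod (m : ℕ) : ((2 * m : ℕ) : ZMod 2) = 0 := by
  rw [Nat.cast_mul]
  have : ((2 : ℕ) : ZMod 2) = 0 := rfl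
  rw [this, zero_mul]

lemma hom_ren_σ₀ {a : MvPolynomial (Fin 4) R} {N : ℕ} (hN : (N : ZMod 2) = 0) {ε : ZMod 2}
    (ha : a.IsWeightedHomogeneous wt ((N : ℤ), (N : ℤ), ε)) :
    (rename σ₀ a).IsWeightedHomogeneous wt ((N : ℤ), (N : ℤ), ε) := by
  rw [hom_iff] at ha ⊢
  intro d hd
  rw [coeff_ren] at hd
  obtain ⟨h1, h2, h3⟩ := ha _ hd
  simp only [ex_zero, ex_one, ex_two, ex_three, Equiv.swap_apply_left, Equiv.swap_apply_right,
    show σ₀ 2 = 2 from rfl, show σ₀ 3 = 3 from rfl] at h1 h2 h3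
  refine ⟨by omega, by omega, ?_⟩
  rw [← h3]
  have h4 : ((d 1 + d 0 : ℕ) : ZMod 2) = ((N : ℕ) : ZMod 2) := by
    congr 1; omega
  rw [hN] at h4
  push_cast at h4
  have h5 : (2 : ZMod 2) = 0 := rfl
  linear_combination h4 - (d 0 : ZMod 2) * h5

lemma hom_ren_σ₂ {a : MvPolynomial (Fin 4) R} {N : ℕ} (hN : (N : ZMod 2) = 0) {ε : ZMod 2}
    (ha : a.IsWeightedHomogeneous wt ((N : ℤ), (N : ℤ), ε)) :
    (rename σ₂ a).IsWeightedHomogeneous wt ((N : ℤ), (N : ℤ), ε) := by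
  rw [hom_iff] at ha ⊢
  intro d hd
  rw [coeff_ren] at hd
  obtain ⟨h1, h2, h3⟩ := ha _ hd
  simp only [ex_zero, ex_one, ex_two, ex_three, Equiv.swap_apply_left, Equiv.swap_apply_right,
    show σ₂ 0 = 0 from rfl, show σ₂ 1 = 1 from rfl] at h1 h2 h3
  refine ⟨by omega, by omega, ?_⟩
  rw [← h3]
  have h4 : ((d 3 + d 2 : ℕ) : ZMod 2) = ((N : ℕ) : ZMod 2) := by
    congr 1; omega
  rw [hN] at h4
  push_cast at h4
  have h5 : (2 : ZMod 2) = 0 := rfl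
  linear_combination h4 - (d 2 : ZMod 2) * h5

lemma hom_ren_τ {a : MvPolynomial (Fin 4) R} {N : ℕ} {ε : ZMod 2}
    (ha : a.IsWeightedHomogeneous wt ((N : ℤ), (N : ℤ), ε)) :
    (rename τ a).IsWeightedHomogeneous wt ((N : ℤ), (N : ℤ), ε) := by
  rw [hom_iff] at ha ⊢
  intro d hd
  rw [coeff_ren] at hd
  obtain ⟨h1, h2, h3⟩ := ha _ hd
  simp only [ex_zero, ex_one, ex_two, ex_three, show τ 0 = 2 from rfl, show τ 1 = 3 from rfl,
    show τ 2 = 0 from rfl, show τ 3 = 1 from rfl] at h1 h2 h3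
  refine ⟨by omega, by omega, ?_⟩
  rw [← h3, add_comm]

lemma eval_ren (π : Equiv.Perm (Fin 4)) (v : Fin 4 → R) (b : MvPolynomial (Fin 4) R) :
    eval v (rename π b) = eval (v ∘ π) b := eval_rename _ _ _

lemma Ok.ren0 {m : ℕ} {a b : MvPolynomial (Fin 4) R} (h : Ok m a b) :
    Ok m (rename σ₀ a) (rename σ₀ b) := by
  have e1 : (![1, 0, 1, 0] : Fin 4 → R) ∘ Helper190_CoarseTwo.σ₀ = ![0, 1, 1, 0] := by
    ext i; fin_cases i <;> rfl
  have e2 : (![0, 1, 1, 0] : Fin 4 → R) ∘ Helper190_CoarseTwo.σ₀ = ![1, 0, 1, 0] := by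
    ext i; fin_cases i <;> rfl
  have e3 : (![1, 0, 0, 1] : Fin 4 → R) ∘ Helper190_CoarseTwo.σ₀ = ![0, 1, 0, 1] := by
    ext i; fin_cases i <;> rfl
  have e4 : (![0, 1, 0, 1] : Fin 4 → R) ∘ Helper190_CoarseTwo.σ₀ = ![1, 0, 0, 1] := by
    ext i; fin_cases i <;> rfl
  constructor
  · have := h.ha
    rw [zdeg_N] at this ⊢
    exact hom_ren_σ₀ (two_mul_zmod m) this
  · have := h.hb
    rw [zdeg_NN] at this ⊢
    exact hom_ren_σ₀ (by rw [Nat.cast_add, two_mul_zmod]; rfl) this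
  · rw [eval_ren, e1]; exact h.h10
  · rw [eval_ren, e2]; exact h.h00
  · rw [eval_ren, e3]; exact h.h11
  · rw [eval_ren, e4]; exact h.h01

lemma Ok.ren2 {m : ℕ} {a b : MvPolynomial (Fin 4) R} (h : Ok m a b) :
    Ok m (rename σ₂ a) (rename σ₂ b) := by
  have e1 : (![1, 0, 1, 0] : Fin 4 → R) ∘ Helper190_CoarseTwo.σ₂ = ![1, 0, 0, 1] := by
    ext i; fin_cases i <;> rfl
  have e2 : (![0, 1, 1, 0] : Fin 4 → R) ∘ Helper190_CoarseTwo.σ₂ = ![0, 1, 0, 1] := by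
    ext i; fin_cases i <;> rfl
  have e3 : (![1, 0, 0, 1] : Fin 4 → R) ∘ Helper190_CoarseTwo.σ₂ = ![1, 0, 1, 0] := by
    ext i; fin_cases i <;> rfl
  have e4 : (![0, 1, 0, 1] : Fin 4 → R) ∘ Helper190_CoarseTwo.σ₂ = ![0, 1, 1, 0] := by
    ext i; fin_cases i <;> rfl
  constructor
  · have := h.ha
    rw [zdeg_N] at this ⊢
    exact hom_ren_σ₂ (two_mul_zmod m) this
  · have := h.hb
    rw [zdeg_NN] at this ⊢
    exact hom_ren_σ₂ (by rw [Nat.cast_add, two_mul_zmod]; rfl) this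
  · rw [eval_ren, e1]; exact h.h01
  · rw [eval_ren, e2]; exact h.h11
  · rw [eval_ren, e3]; exact h.h00
  · rw [eval_ren, e4]; exact h.h10

lemma Ok.renT {m : ℕ} {a b : MvPolynomial (Fin 4) R} (h : Ok m a b) :
    Ok m (rename τ a) (rename τ b) := by
  have e1 : (![1, 0, 1, 0] : Fin 4 → R) ∘ Helper190_CoarseTwo.τ = ![1, 0, 1, 0] := by
    ext i; fin_cases i <;> rfl
  have e2 : (![0, 1, 1, 0] : Fin 4 → R) ∘ Helper190_CoarseTwo.τ = ![1, 0, 0, 1] := by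
    ext i; fin_cases i <;> rfl
  have e3 : (![1, 0, 0, 1] : Fin 4 → R) ∘ Helper190_CoarseTwo.τ = ![0, 1, 1, 0] := by
    ext i; fin_cases i <;> rfl
  have e4 : (![0, 1, 0, 1] : Fin 4 → R) ∘ Helper190_CoarseTwo.τ = ![0, 1, 0, 1] := by
    ext i; fin_cases i <;> rfl
  constructor
  · have := h.ha
    rw [zdeg_N] at this ⊢
    exact hom_ren_τ this
  · have := h.hb
    rw [zdeg_NN] at this ⊢
    exact hom_ren_τ this
  · rw [eval_ren, e1]; exact h.h00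
  · rw [eval_ren, e2]; exact h.h01
  · rw [eval_ren, e3]; exact h.h10
  · rw [eval_ren, e4]; exact h.h11

lemma Ok.unitW {m : ℕ} {a b : MvPolynomial (Fin 4) R} (h : Ok m a b) : IsUnit (Wc m b) :=
  (h.h00.pow _).mul h.h11

lemma Gc_mul {m : ℕ} {a b : MvPolynomial (Fin 4) R} (h : IsUnit (Wc m b)) :
    Gc m a b * Wc m b = Fc m a b ^ m := by
  rw [Gc, mul_assoc, Ring.inverse_mul_cancel _ h, mul_one]

/-! ### renaming invariance -/

lemma ren_ren_self (a : MvPolynomial (Fin 4) R) {π : Equiv.Perm (Fin 4)} (h : π * π = 1) :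
    rename π (rename π a) = a := by
  rw [rename_rename]
  have : (π : Fin 4 → Fin 4) ∘ π = id := by
    ext i
    have := congrArg (fun f => f i) h
    simpa using congrArg Fin.val this
  rw [this, rename_id]; rfl

lemma ren_comm (a : MvPolynomial (Fin 4) R) {π ρ π' ρ' : Equiv.Perm (Fin 4)}
    (h : π * ρ = ρ' * π') :
    rename π (rename ρ a) = rename ρ' (rename π' a) := by
  have h' : (π : Fin 4 → Fin 4) ∘ ρ = ρ' ∘ π' := by
    ext i
    have := congrArg (fun f => f i) h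
    simpa using congrArg Fin.val this
  rw [rename_rename, rename_rename, h']

lemma Qa_σ₀ {m : ℕ} (hm : 1 ≤ m) (a : MvPolynomial (Fin 4) R) : Qa m (rename σ₀ a) = Qa m a := by
  obtain ⟨k, rfl⟩ : ∃ k, m = k + 1 := ⟨m - 1, by omega⟩
  simp only [Qa, cf, coeff_ren, ex_zero, ex_one, ex_two, ex_three, Equiv.swap_apply_left,
    Equiv.swap_apply_right, show Helper190_CoarseTwo.σ₀ 2 = 2 from rfl,
    show Helper190_CoarseTwo.σ₀ 3 = 3 from rfl]
  have e1 : 2 * (k + 1) - (k + 1 + 1) = k := by omega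
  have e2 : 2 * (k + 1) - (k + 1 - 1) = k + 2 := by omega
  have e3 : 2 * (k + 1) - (k + 1) = k + 1 := by omega
  have e4 : k + 1 - 1 = k := by omega
  have e5 : k + 1 + 1 = k + 2 := by omega
  rw [e1, e2, e3, e4, e5]
  ring

lemma Qa_σ₂ {m : ℕ} (hm : 1 ≤ m) (a : MvPolynomial (Fin 4) R) : Qa m (rename σ₂ a) = Qa m a := by
  obtain ⟨k, rfl⟩ : ∃ k, m = k + 1 := ⟨m - 1, by omega⟩
  simp only [Qa, cf, coeff_ren, ex_zero, ex_one, ex_two, ex_three, Equiv.swap_apply_left,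
    Equiv.swap_apply_right, show Helper190_CoarseTwo.σ₂ 0 = 0 from rfl,
    show Helper190_CoarseTwo.σ₂ 1 = 1 from rfl]
  have e1 : 2 * (k + 1) - (k + 1 + 1) = k := by omega
  have e2 : 2 * (k + 1) - (k + 1 - 1) = k + 2 := by omega
  have e3 : 2 * (k + 1) - (k + 1) = k + 1 := by omega
  have e4 : k + 1 - 1 = k := by omega
  have e5 : k + 1 + 1 = k + 2 := by omega
  rw [e1, e2, e3, e4, e5]
  ring

lemma Qa_τ {m : ℕ} (hm : 1 ≤ m) (a : MvPolynomial (Fin 4) R) : Qa m (rename τ a) = Qa m a := by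
  obtain ⟨k, rfl⟩ : ∃ k, m = k + 1 := ⟨m - 1, by omega⟩
  simp only [Qa, cf, coeff_ren, ex_zero, ex_one, ex_two, ex_three,
    show Helper190_CoarseTwo.τ 0 = 2 from rfl, show Helper190_CoarseTwo.τ 1 = 3 from rfl,
    show Helper190_CoarseTwo.τ 2 = 0 from rfl, show Helper190_CoarseTwo.τ 3 = 1 from rfl]
  ring

lemma Gc_τ (m : ℕ) (a b : MvPolynomial (Fin 4) R) : Gc m (rename τ a) (rename τ b) = Gc m a b := by
  have e1 : (![1, 0, 1, 0] : Fin 4 → R) ∘ Helper190_CoarseTwo.τ = ![1, 0, 1, 0] := by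
    ext i; fin_cases i <;> rfl
  have e4 : (![0, 1, 0, 1] : Fin 4 → R) ∘ Helper190_CoarseTwo.τ = ![0, 1, 0, 1] := by
    ext i; fin_cases i <;> rfl
  have hW : Wc m (rename τ b) = Wc m b := by
    simp only [Wc, eval_ren, e1, e4]
  have hF : Fc m (rename τ a) (rename τ b) = Fc m a b := by
    simp only [Fc, cf, coeff_ren, ex_zero, ex_one, ex_two, ex_three,
      show Helper190_CoarseTwo.τ 0 = 2 from rfl, show Helper190_CoarseTwo.τ 1 = 3 from rfl,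
      show Helper190_CoarseTwo.τ 2 = 0 from rfl, show Helper190_CoarseTwo.τ 3 = 1 from rfl]
    ring
  rw [Gc, hW, hF, Gc]

lemma Sc_σ₀ (m : ℕ) (a b : MvPolynomial (Fin 4) R) :
    Sc m (rename σ₀ a) (rename σ₀ b) = Sc m a b := by
  simp only [Sc]
  have h1 : ∀ c : MvPolynomial (Fin 4) R, rename (Equiv.swap (0 : Fin 4) 1)
      (rename (Equiv.swap (0 : Fin 4) 1) c) = c := fun c => ren_ren_self c (by decide)
  have h2 : ∀ c : MvPolynomial (Fin 4) R, rename (Equiv.swap (2 : Fin 4) 3)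
      (rename (Equiv.swap (0 : Fin 4) 1) c) = rename (Equiv.swap (0 : Fin 4) 1)
      (rename (Equiv.swap (2 : Fin 4) 3) c) := fun c => ren_comm c (by decide)
  simp only [h2, h1]
  ring

lemma Sc_σ₂ (m : ℕ) (a b : MvPolynomial (Fin 4) R) :
    Sc m (rename σ₂ a) (rename σ₂ b) = Sc m a b := by
  simp only [Sc]
  have h1 : ∀ c : MvPolynomial (Fin 4) R, rename (Equiv.swap (2 : Fin 4) 3)
      (rename (Equiv.swap (2 : Fin 4) 3) c) = c := fun c => ren_ren_self c (by decide)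
  simp only [h1]
  ring

lemma Sc_τ (m : ℕ) (a b : MvPolynomial (Fin 4) R) :
    Sc m (rename τ a) (rename τ b) = Sc m a b := by
  simp only [Sc]
  have h1 : ∀ c : MvPolynomial (Fin 4) R, rename (Equiv.swap (0 : Fin 4) 1)
      (rename τ c) = rename τ (rename (Equiv.swap (2 : Fin 4) 3) c) :=
    fun c => ren_comm c (by decide)
  have h2 : ∀ c : MvPolynomial (Fin 4) R, rename (Equiv.swap (2 : Fin 4) 3)
      (rename τ c) = rename τ (rename (Equiv.swap (0 : Fin 4) 1) c) :=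
    fun c => ren_comm c (by decide)
  have h3 : ∀ c : MvPolynomial (Fin 4) R, rename (Equiv.swap (2 : Fin 4) 3)
      (rename (Equiv.swap (0 : Fin 4) 1) c) = rename (Equiv.swap (0 : Fin 4) 1)
      (rename (Equiv.swap (2 : Fin 4) 3) c) := fun c => ren_comm c (by decide)
  simp only [h2, h1, Gc_τ, h3]
  ring

lemma fbar_ren {m : ℕ} (hm : 1 ≤ m) {π : Equiv.Perm (Fin 4)} (hπ : good π)
    (a b : MvPolynomial (Fin 4) R) : fbar m (rename π a) (rename π b) = fbar m a b := by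
  have k0 : ∀ a b : MvPolynomial (Fin 4) R, fbar m (rename σ₀ a) (rename σ₀ b) = fbar m a b :=
    fun a b => by rw [fbar, Qa_σ₀ hm, Sc_σ₀, fbar]
  have k2 : ∀ a b : MvPolynomial (Fin 4) R, fbar m (rename σ₂ a) (rename σ₂ b) = fbar m a b :=
    fun a b => by rw [fbar, Qa_σ₂ hm, Sc_σ₂, fbar]
  have k3 : ∀ a b : MvPolynomial (Fin 4) R, fbar m (rename τ a) (rename τ b) = fbar m a b :=
    fun a b => by rw [fbar, Qa_τ hm, Sc_τ, fbar]
  have key : ∀ π : Equiv.Perm (Fin 4), good π → π = 1 ∨ π = σ₀ ∨ π = σ₂ ∨ π = σ₀ * σ₂ ∨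
      π = τ ∨ π = σ₀ * τ ∨ π = σ₂ * τ ∨ π = σ₀ * (σ₂ * τ) := by decide
  have hmul : ∀ (π ρ : Equiv.Perm (Fin 4)) (c : MvPolynomial (Fin 4) R),
      rename (π * ρ) c = rename π (rename ρ c) := by
    intro π ρ c
    rw [rename_rename]; rfl
  rcases key π hπ with rfl | rfl | rfl | rfl | rfl | rfl | rfl | rfl
  · have : ((1 : Equiv.Perm (Fin 4)) : Fin 4 → Fin 4) = id := rfl
    rw [this, rename_id]; rfl
  · exact k0 a b
  · exact k2 a b
  · rw [hmul, hmul, k0, k2]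
  · exact k3 a b
  · rw [hmul σ₀ τ, hmul σ₀ τ, k0, k3]
  · rw [hmul σ₂ τ, hmul σ₂ τ, k2, k3]
  · rw [hmul σ₀ (σ₂ * τ), hmul σ₀ (σ₂ * τ), hmul σ₂ τ, hmul σ₂ τ, k0, k2, k3]

end Pool.Agent.Helper190_CoarseTwo
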