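import Pool.Agent.Helper190_CoarseTwo.Eval

open MvPolynomial CategoryTheory

noncomputable section

namespace Pool.Agent.Helper190_CoarseTwo

/-! ### base change -/

lemma eval_map_comp {R S : Type} [CommRing R] [CommRing S] (f : R →+* S) (v : Fin 4 → R)
    (w : Fin 4 → S) (h : ∀ i, w i = f (v i)) (b : MvPolynomial (Fin 4) R) :
    eval w (map f b) = f (eval v b) := by
  have : (eval w).comp (map f) = f.comp (eval v) := by
    apply MvPolynomial.ringHom_ext
    · intro r; simp
    · intro i; simp [h]
  exact congrArg (fun g => g b) this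

lemma hom_map {R S : Type} [CommRing R] [CommRing S] (f : R →+* S) {a : MvPolynomial (Fin 4) R}
    {γ : ℤ × ℤ × ZMod 2} (ha : a.IsWeightedHomogeneous wt γ) :
    (map f a).IsWeightedHomogeneous wt γ := by
  intro d hd
  apply ha
  intro h
  apply hd
  rw [coeff_map, h, map_zero]

/-- base change of a family -/
def Surf.baseChange {m : ℕ} {P : ∀ (k : Type) [Field k], MvPolynomial (Fin 4) k →
    MvPolynomial (Fin 4) k → Prop} {R S : Type} [CommRing R] [CommRing S] (f : R →+* S)
    (X : Surf m P R) : Surf m P S where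
  a := map f X.a
  b := map f X.b
  ha := hom_map f X.ha
  hb := hom_map f X.hb
  h00 := by
    rw [eval_map_comp f ![1, 0, 1, 0] _ (by intro i; fin_cases i <;> simp)]
    exact X.h00.map f
  h10 := by
    rw [eval_map_comp f ![0, 1, 1, 0] _ (by intro i; fin_cases i <;> simp)]
    exact X.h10.map f
  h01 := by
    rw [eval_map_comp f ![1, 0, 0, 1] _ (by intro i; fin_cases i <;> simp)]
    exact X.h01.map f
  h11 := by
    rw [eval_map_comp f ![0, 1, 0, 1] _ (by intro i; fin_cases i <;> simp)]
    exact X.h11.map f
  fib k _ _ g := by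
    rw [map_map, map_map]
    exact X.fib k (g.comp f)

lemma Surf.ext' {m : ℕ} {P : ∀ (k : Type) [Field k], MvPolynomial (Fin 4) k →
    MvPolynomial (Fin 4) k → Prop} {R : Type} [CommRing R] {X Y : Surf m P R}
    (h1 : X.a = Y.a) (h2 : X.b = Y.b) : X = Y := by
  cases X; cases Y
  simp only at h1 h2
  subst h1 h2
  rfl

/-- the functor of families -/
def Fam (m : ℕ) (P : ∀ (k : Type) [Field k], MvPolynomial (Fin 4) k →
    MvPolynomial (Fin 4) k → Prop) : CommRingCat.{0} ⥤ Type where
  obj R := Surf m P R
  map f := TypeCat.ofHom (fun X : Surf m P _ => X.baseChange f.hom)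
  map_id R := by
    ext X
    apply Surf.ext'
    · exact map_id X.a
    · exact map_id X.b
  map_comp f g := by
    ext X
    apply Surf.ext'
    · exact (map_map f.hom g.hom X.a).symm
    · exact (map_map f.hom g.hom X.b).symm

end Pool.Agent.Helper190_CoarseTwo
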