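import Pool.Agent.Helper190_CoarseTwo.Fbar

open MvPolynomial

noncomputable section

namespace Pool.Agent.Helper190_CoarseTwo

variable {R : Type} [CommRing R]

/-! ### evaluation at corners -/

lemma eval_c0 {N : ℕ} {b : MvPolynomial (Fin 4) R}
    (hb : ∀ d, coeff d b ≠ 0 → d 0 + d 1 = N ∧ d 2 + d 3 = N) (x y : R) :
    eval ![x, 0, y, 0] b = x ^ N * y ^ N * coeff (ex N 0 N 0) b := by
  rw [eval_eq', Finset.sum_eq_single (ex N 0 N 0)]
  · simp [Fin.prod_univ_four]; ring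
  · intro d hd hne
    obtain ⟨h1, h2⟩ := hb d (mem_support_iff.mp hd)
    have : d 1 ≠ 0 ∨ d 3 ≠ 0 := by
      by_contra h
      push Not at h
      apply hne
      apply ext4 <;> simp <;> omega
    rcases this with h | h <;> simp [Fin.prod_univ_four, h]
  · intro h
    rw [notMem_support_iff.mp h, zero_mul]

lemma eval_c1 {N : ℕ} {b : MvPolynomial (Fin 4) R}
    (hb : ∀ d, coeff d b ≠ 0 → d 0 + d 1 = N ∧ d 2 + d 3 = N) (x y : R) :
    eval ![0, x, 0, y] b = x ^ N * y ^ N * coeff (ex 0 N 0 N) b := by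
  rw [eval_eq', Finset.sum_eq_single (ex 0 N 0 N)]
  · simp [Fin.prod_univ_four]; ring
  · intro d hd hne
    obtain ⟨h1, h2⟩ := hb d (mem_support_iff.mp hd)
    have : d 0 ≠ 0 ∨ d 2 ≠ 0 := by
      by_contra h
      push Not at h
      apply hne
      apply ext4 <;> simp <;> omega
    rcases this with h | h <;> simp [Fin.prod_univ_four, h]
  · intro h
    rw [notMem_support_iff.mp h, zero_mul]

lemma eval_sc (l v : Fin 4 → R) (b : MvPolynomial (Fin 4) R) :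
    eval v (sc l b) = eval (fun i => l i * v i) b := by
  have : (eval v).comp (sc l : MvPolynomial (Fin 4) R →+* MvPolynomial (Fin 4) R) =
      eval (fun i => l i * v i) := by
    apply MvPolynomial.ringHom_ext
    · intro r; simp [sc]
    · intro i; simp [sc]
  exact congrArg (fun f => f b) this

/-! ### scalar invariance -/

lemma cf_C_mul (N i j : ℕ) (r : R) (a : MvPolynomial (Fin 4) R) :
    cf N i j (C r * a) = r * cf N i j a := by
  simp [cf, coeff_C_mul]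

lemma Gc_scalar {m : ℕ} {a b : MvPolynomial (Fin 4) R} (h : IsUnit (Wc m b)) {μ : R}
    (hμ : IsUnit μ) : μ ^ 2 * Gc m (C μ * a) (C μ ^ 2 * b) = Gc m a b := by
  have hb : C μ ^ 2 * b = C (μ ^ 2) * b := by rw [map_pow]
  have hW : Wc m (C μ ^ 2 * b) = μ ^ (4 * m + 2) * Wc m b := by
    simp only [Wc, map_mul, map_pow, eval_C]
    ring
  have hF : Fc m (C μ * a) (C μ ^ 2 * b) = μ ^ 4 * Fc m a b := by
    rw [hb]
    simp only [Fc, cf_C_mul]
    ring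
  have h1 := Gc_mul (a := C μ * a) (m := m) (b := C μ ^ 2 * b)
    (by rw [hW]; exact (hμ.pow _).mul h)
  have h2 := Gc_mul (a := a) h
  rw [hW, hF, mul_pow, ← h2] at h1
  have hu : IsUnit (μ ^ (4 * m) * Wc m b) := (hμ.pow _).mul h
  apply hu.mul_left_cancel
  linear_combination h1

lemma Ok.Sc_scalar {m : ℕ} {a b : MvPolynomial (Fin 4) R} (h : Ok m a b) {μ : R}
    (hμ : IsUnit μ) : μ ^ 2 * Sc m (C μ * a) (C μ ^ 2 * b) = Sc m a b := by
  simp only [Sc, map_mul, map_pow, rename_C]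
  rw [mul_add, mul_add, mul_add, Gc_scalar h.unitW hμ, Gc_scalar h.ren0.unitW hμ,
    Gc_scalar h.ren2.unitW hμ, Gc_scalar h.ren2.ren0.unitW hμ]

lemma Ok.fbar_scalar {m : ℕ} {a b : MvPolynomial (Fin 4) R} (h : Ok m a b) {μ : R}
    (hμ : IsUnit μ) : fbar m (C μ * a) (C μ ^ 2 * b) = fbar m a b := by
  have hQ : Qa m (C μ * a) = μ ^ 2 * Qa m a := by
    simp only [Qa, cf_C_mul]; ring
  rw [fbar, fbar, hQ, ← h.Sc_scalar hμ]
  ring

/-! ### scaling invariance -/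

lemma Qa_sc {m : ℕ} (hm : 1 ≤ m) (l : Fin 4 → R) (a : MvPolynomial (Fin 4) R) :
    Qa m (sc l a) = (l 0 * l 1 * l 2 * l 3) ^ (2 * m) * Qa m a := by
  obtain ⟨k, rfl⟩ : ∃ k, m = k + 1 := ⟨m - 1, by omega⟩
  simp only [Qa, cf, coeff_sc, ex_zero, ex_one, ex_two, ex_three]
  have e1 : 2 * (k + 1) - (k + 1 + 1) = k := by omega
  have e2 : 2 * (k + 1) - (k + 1 - 1) = k + 2 := by omega
  have e3 : 2 * (k + 1) - (k + 1) = k + 1 := by omega
  have e4 : k + 1 - 1 = k := by omega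
  have e5 : k + 1 + 1 = k + 2 := by omega
  rw [e1, e2, e3, e4, e5]
  ring

lemma Gc_sc {m : ℕ} (hm : 1 ≤ m) {a b : MvPolynomial (Fin 4) R} (h : Ok m a b) {l : Fin 4 → R}
    (hl : ∀ i, IsUnit (l i)) :
    (l 0 * l 1 * l 2 * l 3) ^ (2 * m) * Gc m (sc l a) (sc l b) = Gc m a b := by
  have hbN := hom_N (N := 2 * m + 2 * m) (by have := h.hb; rw [zdeg_NN] at this; exact this)
  have hW : Wc m (sc l b) = (l 0 * l 2) ^ (8 * m * m) * (l 1 * l 3) ^ (4 * m) * Wc m b := by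
    have e1 : (fun i => l i * (![1, 0, 1, 0] : Fin 4 → R) i) = ![l 0, 0, l 2, 0] := by
      ext i; fin_cases i <;> simp
    have e2 : (fun i => l i * (![0, 1, 0, 1] : Fin 4 → R) i) = ![0, l 1, 0, l 3] := by
      ext i; fin_cases i <;> simp
    simp only [Wc, eval_sc, e1, e2, eval_c0 hbN, eval_c1 hbN]
    ring
  have hF : Fc m (sc l a) (sc l b) =
      ((l 0 * l 2) ^ (8 * m - 2) * (l 1 * l 3) ^ 2) * Fc m a b := by
    obtain ⟨k, rfl⟩ : ∃ k, m = k + 1 := ⟨m - 1, by omega⟩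
    simp only [Fc, cf, coeff_sc, ex_zero, ex_one, ex_two, ex_three]
    have e1 : 2 * (k + 1) + 2 * (k + 1) - 1 = 4 * k + 3 := by omega
    have e2 : 2 * (k + 1) + 2 * (k + 1) - 2 = 4 * k + 2 := by omega
    have e3 : 2 * (k + 1) + 2 * (k + 1) - 0 = 4 * k + 4 := by omega
    have e4 : 2 * (k + 1) - 1 = 2 * k + 1 := by omega
    have e5 : 2 * (k + 1) - 0 = 2 * k + 2 := by omega
    have e6 : 8 * (k + 1) - 2 = 8 * k + 6 := by omega
    rw [e1, e2, e3, e4, e5, e6]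
    ring
  have h2 := Gc_mul (a := a) h.unitW
  have hu1 : IsUnit (l 0 * l 2) := (hl 0).mul (hl 2)
  have hu2 : IsUnit (l 1 * l 3) := (hl 1).mul (hl 3)
  have h1 := Gc_mul (a := sc l a) (m := m) (b := sc l b)
    (by rw [hW]; exact ((hu1.pow _).mul (hu2.pow _)).mul h.unitW)
  rw [hW, hF, mul_pow _ (Fc m a b), ← h2] at h1
  have hu : IsUnit (((l 0 * l 2) ^ (8 * m - 2) * (l 1 * l 3) ^ 2) ^ m * Wc m b) :=
    (((hu1.pow _).mul (hu2.pow _)).pow _).mul h.unitW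
  apply hu.mul_left_cancel
  have e : ((l 0 * l 2) ^ (8 * m - 2) * (l 1 * l 3) ^ 2) ^ m * (l 0 * l 1 * l 2 * l 3) ^ (2 * m) =
      (l 0 * l 2) ^ (8 * m * m) * (l 1 * l 3) ^ (4 * m) := by
    obtain ⟨k, rfl⟩ : ∃ k, m = k + 1 := ⟨m - 1, by omega⟩
    have e6 : 8 * (k + 1) - 2 = 8 * k + 6 := by omega
    rw [e6]
    ring
  linear_combination h1 + (Wc m b * Gc m (sc l a) (sc l b)) * e

lemma Ok.fbar_sc {m : ℕ} (hm : 1 ≤ m) {a b : MvPolynomial (Fin 4) R} (h : Ok m a b)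
    {l : Fin 4 → R} (hl : ∀ i, IsUnit (l i)) :
    fbar m (sc l a) (sc l b) = fbar m a b := by
  have hS : (l 0 * l 1 * l 2 * l 3) ^ (2 * m) *
      Sc m (sc l a) (sc l b) = Sc m a b := by
    simp only [Sc, rename_sc]
    have g1 := Gc_sc hm h hl
    have g2 := Gc_sc hm h.ren0 (l := fun i => l (σ₀⁻¹ i)) (fun i => hl _)
    have g3 := Gc_sc hm h.ren2 (l := fun i => l (σ₂⁻¹ i)) (fun i => hl _)
    have g4 := Gc_sc hm h.ren2.ren0 (l := fun i => l (σ₂⁻¹ (σ₀⁻¹ i))) (fun i => hl _)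
    have e2 : l (σ₀⁻¹ 0) * l (σ₀⁻¹ 1) * l (σ₀⁻¹ 2) * l (σ₀⁻¹ 3) = l 0 * l 1 * l 2 * l 3 := by
      rw [show σ₀⁻¹ 0 = 1 from by decide, show σ₀⁻¹ 1 = 0 from by decide,
        show σ₀⁻¹ 2 = 2 from by decide, show σ₀⁻¹ 3 = 3 from by decide]; ring
    have e3 : l (σ₂⁻¹ 0) * l (σ₂⁻¹ 1) * l (σ₂⁻¹ 2) * l (σ₂⁻¹ 3) = l 0 * l 1 * l 2 * l 3 := by
      rw [show σ₂⁻¹ 0 = 0 from by decide, show σ₂⁻¹ 1 = 1 from by decide,
        show σ₂⁻¹ 2 = 3 from by decide, show σ₂⁻¹ 3 = 2 from by decide]; ring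
    have e4 : l (σ₂⁻¹ (σ₀⁻¹ 0)) * l (σ₂⁻¹ (σ₀⁻¹ 1)) * l (σ₂⁻¹ (σ₀⁻¹ 2)) * l (σ₂⁻¹ (σ₀⁻¹ 3)) =
        l 0 * l 1 * l 2 * l 3 := by
      rw [show σ₂⁻¹ (σ₀⁻¹ 0) = 1 from by decide, show σ₂⁻¹ (σ₀⁻¹ 1) = 0 from by decide,
        show σ₂⁻¹ (σ₀⁻¹ 2) = 3 from by decide, show σ₂⁻¹ (σ₀⁻¹ 3) = 2 from by decide]; ring
    rw [e2] at g2
    rw [e3] at g3
    rw [e4] at g4
    linear_combination g1 + g2 + g3 + g4
  rw [fbar, fbar, Qa_sc hm, ← hS]
  ring

/-! ### translation invariance -/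

lemma eval_corner_zero {m : ℕ} {a : MvPolynomial (Fin 4) R}
    (ha : a.IsWeightedHomogeneous wt (zdeg m)) :
    eval ![1, 0, 1, 0] a = 0 ∧ eval ![0, 1, 0, 1] a = 0 := by
  rw [zdeg_N] at ha
  have hN := hom_N ha
  rw [eval_c0 hN, eval_c1 hN]
  constructor
  · have : coeff (ex (2 * m) 0 (2 * m) 0) a = 0 := by
      by_contra h
      obtain ⟨h1, h2, h3⟩ := hom_iff.mp ha _ h
      simp at h3
    rw [this, mul_zero]
  · have : coeff (ex 0 (2 * m) 0 (2 * m)) a = 0 := by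
      by_contra h
      obtain ⟨h1, h2, h3⟩ := hom_iff.mp ha _ h
      simp only [ex_one, ex_three, two_mul_zmod] at h3
      simp at h3
    rw [this, mul_zero]

lemma cf_add (N i j : ℕ) (a b : MvPolynomial (Fin 4) R) :
    cf N i j (a + b) = cf N i j a + cf N i j b := by
  simp [cf]

lemma Gc_trans {m : ℕ} (hm : 1 ≤ m) (h2 : (2 : R) = 0) {a b g : MvPolynomial (Fin 4) R}
    (ha : a.IsWeightedHomogeneous wt (zdeg m)) (hg : g.IsWeightedHomogeneous wt (zdeg m)) :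
    Gc m a (b + a * g + g ^ 2) = Gc m a b := by
  have hW : Wc m (b + a * g + g ^ 2) = Wc m b := by
    obtain ⟨a1, a2⟩ := eval_corner_zero ha
    obtain ⟨g1, g2⟩ := eval_corner_zero hg
    simp only [Wc, map_add, map_mul, map_pow, a1, a2, g1, g2]
    ring
  have hag := ha.mul hg
  have hgg := hg.mul hg
  rw [zdeg_NN] at hag hgg
  rw [zdeg_N] at ha hg
  obtain ⟨x1, x2, x3⟩ := cf_00 ha hg (by omega) hag
  obtain ⟨y1, y2, y3⟩ := cf_00 hg hg (by omega) hgg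
  have hF : Fc m a (b + a * g + g ^ 2) = Fc m a b := by
    simp only [Fc, cf_add, sq g, x1, x2, x3, y1, y2, y3]
    generalize cf (2 * m + 2 * m) 1 1 b = B
    generalize cf (2 * m) 1 0 a = A1
    generalize cf (2 * m) 0 1 a = A0
    generalize cf (2 * m) 1 0 g = G1
    generalize cf (2 * m) 0 1 g = G0
    linear_combination (B * A1 * G0 + B * A0 * G1 + 2 * B * G0 * G1 + 2 * A1 * G0 * A0 * G1 +
      2 * A1 * G0 ^ 2 * G1 + A1 * A0 ^ 2 * G1 + A1 ^ 2 * G0 * A0 + A1 ^ 2 * G0 ^ 2 +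
      2 * G0 * A0 * G1 ^ 2 + 2 * G0 ^ 2 * G1 ^ 2 + A0 ^ 2 * G1 ^ 2) * h2
  rw [Gc, Gc, hW, hF]

lemma fbar_trans {m : ℕ} (hm : 1 ≤ m) (h2 : (2 : R) = 0) {a b g : MvPolynomial (Fin 4) R}
    (ha : a.IsWeightedHomogeneous wt (zdeg m)) (hg : g.IsWeightedHomogeneous wt (zdeg m)) :
    fbar m a (b + a * g + g ^ 2) = fbar m a b := by
  have hgN := hg
  have haN := ha
  rw [zdeg_N] at hgN haN
  have a1 := hom_ren_σ₀ (two_mul_zmod m) haN
  have a2 := hom_ren_σ₂ (two_mul_zmod m) haN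
  have a3 := hom_ren_σ₀ (two_mul_zmod m) a2
  rw [← zdeg_N] at a1 a2 a3
  have g1 := hom_ren_σ₀ (two_mul_zmod m) hgN
  have g2 := hom_ren_σ₂ (two_mul_zmod m) hgN
  have g3 := hom_ren_σ₀ (two_mul_zmod m) g2
  rw [← zdeg_N] at g1 g2 g3
  simp only [fbar, Sc, map_add, map_mul, map_pow]
  rw [Gc_trans hm h2 ha hg, Gc_trans hm h2 a1 g1, Gc_trans hm h2 a2 g2, Gc_trans hm h2 a3 g3]

/-- invariance of `fbar` under explicit isomorphisms -/
theorem fbar_expl {m : ℕ} (hm : 1 ≤ m) (h2 : (2 : R) = 0) {a b a' b' : MvPolynomial (Fin 4) R}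
    (h : Ok m a b) (h' : Ok m a' b') (he : Expl m a b a' b') : fbar m a b = fbar m a' b' := by
  obtain ⟨π, l, μ, g, hπ, hl, hμ, hg, e1, e2⟩ := he
  have h2' : (2 : MvPolynomial (Fin 4) R) = 0 := by
    have := congrArg (C (σ := Fin 4)) h2
    rwa [map_ofNat, map_zero] at this
  rw [h2', zero_mul, add_zero] at e1
  have ha : (cc π l a).IsWeightedHomogeneous wt (zdeg m) := by
    rw [← e1]
    intro d hd
    rw [coeff_C_mul] at hd
    exact h'.ha (right_ne_zero_of_mul hd)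
  rw [← h'.fbar_scalar hμ, e1, e2, fbar_trans hm h2 ha hg, cc_eq, cc_eq, fbar_ren hm hπ,
    h.fbar_sc hm hl]

end Pool.Agent.Helper190_CoarseTwo
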