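import Pool.Agent.Helper190_CoarseTwo.Theta

open MvPolynomial

noncomputable section

namespace Pool.Agent.Helper190_CoarseTwo

variable {R : Type} [CommRing R]

/-- the coordinate change `X i ↦ l i * X (π i)` -/
def cc (π : Equiv.Perm (Fin 4)) (l : Fin 4 → R) :
    MvPolynomial (Fin 4) R →ₐ[R] MvPolynomial (Fin 4) R :=
  aeval (fun i => C (l i) * X (π i))

/-- explicit isomorphisms -/
def Expl (m : ℕ) (a b a' b' : MvPolynomial (Fin 4) R) : Prop :=
  ∃ (π : Equiv.Perm (Fin 4)) (l : Fin 4 → R) (μ : R) (g : MvPolynomial (Fin 4) R),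
    good π ∧ (∀ i, IsUnit (l i)) ∧ IsUnit μ ∧ g.IsWeightedHomogeneous wt (zdeg m) ∧
    C μ * a' = cc π l a + 2 * g ∧
    C μ ^ 2 * b' = cc π l b + cc π l a * g + g ^ 2

lemma zdeg_eq (m : ℕ) : zdeg m = (2 * m : ℕ) • wt 0 + (2 * m : ℕ) • wt 2 + (0, 0, 1) := by
  refine Prod.ext ?_ (Prod.ext ?_ ?_) <;> simp [wt, zdeg]

lemma two_m_wt (m : ℕ) (j : Fin 4) : (2 * m : ℕ) • wt j =
    if j.val / 2 = 0 then (((2 * m : ℕ) : ℤ), (0 : ℤ), (0 : ZMod 2)) else
      ((0 : ℤ), ((2 * m : ℕ) : ℤ), (0 : ZMod 2)) := by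
  have h2 : ((2 * m : ℕ) : ZMod 2) = 0 := by
    rw [Nat.cast_mul]
    have : ((2 : ℕ) : ZMod 2) = 0 := rfl
    rw [this, zero_mul]
  fin_cases j <;> refine Prod.ext ?_ (Prod.ext ?_ ?_) <;>
    simp only [wt, Prod.smul_fst, Prod.smul_snd] <;> simp [h2]

lemma theta_zdeg {m : ℕ} {θ : (ℤ × ℤ × ZMod 2) ≃+ (ℤ × ℤ × ZMod 2)}
    {π : Equiv.Perm (Fin 4)} (hg : good π) (hπ : ∀ i, θ (wt i) = wt (π i)) :
    θ (zdeg m) = zdeg m := by
  rw [zdeg_eq, map_add, map_add, map_nsmul, map_nsmul, hπ, hπ, theta_tors, two_m_wt, two_m_wt,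
    two_m_wt, two_m_wt]
  congr 1
  rcases hg with h | h
  · rw [h 0, h 2]
  · have h0 : ((π 0).val / 2 = 1) := by have := h 0; have := (π 0).isLt; simp at *; omega
    have h2 : ((π 2).val / 2 = 0) := by have := h 2; have := (π 2).isLt; simp at *; omega
    rw [h0, h2]
    simp

lemma iso_X {m : ℕ} (hm : 1 ≤ m) {a b a' b' : MvPolynomial (Fin 4) R}
    {θ : (ℤ × ℤ × ZMod 2) ≃+ (ℤ × ℤ × ZMod 2)} {ψ : Cox a b ≃ₐ[R] Cox a' b'}
    (h : ∀ γ x, x ∈ piece m a b γ ↔ ψ x ∈ piece m a' b' (θ γ))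
    {π : Equiv.Perm (Fin 4)} (hπ : ∀ i, θ (wt i) = wt (π i)) (i : Fin 4) :
    ∃ c : R, ψ (AdjoinRoot.of _ (X i)) = AdjoinRoot.of _ (C c * X (π i)) := by
  have h1 : (AdjoinRoot.of (Polynomial.X ^ 2 + Polynomial.C a * Polynomial.X + Polynomial.C b)
      (X i)) ∈ piece m a b (wt i) :=
    ⟨X i, 0, isWeightedHomogeneous_X _ _ _, isWeightedHomogeneous_zero _ _ _, by simp⟩
  rw [h, hπ] at h1
  obtain ⟨p, q, hp, hq, hx⟩ := mem_piece.mp h1
  have hq0 : q = 0 := by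
    apply hom_neg hq
    left
    generalize π i = j
    fin_cases j <;> simp [wt, zdeg] <;> omega
  subst hq0
  refine ⟨coeff (Finsupp.single (π i) 1) p, ?_⟩
  rw [hx, ← hom_wt _ hp]
  simp [nf]

lemma iso_root {m : ℕ} {a b a' b' : MvPolynomial (Fin 4) R}
    {θ : (ℤ × ℤ × ZMod 2) ≃+ (ℤ × ℤ × ZMod 2)} {ψ : Cox a b ≃ₐ[R] Cox a' b'}
    (h : ∀ γ x, x ∈ piece m a b γ ↔ ψ x ∈ piece m a' b' (θ γ))
    (hz : θ (zdeg m) = zdeg m) :
    ∃ (g : MvPolynomial (Fin 4) R) (μ : R), g.IsWeightedHomogeneous wt (zdeg m) ∧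
      ψ (AdjoinRoot.root _) = nf a' b' g (C μ) := by
  have h1 : (AdjoinRoot.root (Polynomial.X ^ 2 + Polynomial.C a * Polynomial.X +
      Polynomial.C b)) ∈ piece m a b (zdeg m) :=
    ⟨0, 1, isWeightedHomogeneous_zero _ _ _, by
      rw [sub_self]; exact isWeightedHomogeneous_one _ _, by simp⟩
  rw [h, hz] at h1
  obtain ⟨p, q, hp, hq, hx⟩ := mem_piece.mp h1
  rw [sub_self] at hq
  exact ⟨p, coeff 0 q, hp, by rw [hx, ← hom_zero hq]⟩

lemma nf_of (a b p : MvPolynomial (Fin 4) R) : AdjoinRoot.of _ p = nf a b p 0 := by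
  simp [nf]

lemma cox_of_inj {a b p q : MvPolynomial (Fin 4) R}
    (h : AdjoinRoot.of (Polynomial.X ^ 2 + Polynomial.C a * Polynomial.X + Polynomial.C b) p =
      AdjoinRoot.of _ q) : p = q := by
  rw [nf_of, nf_of] at h
  exact (nf_inj h).1

lemma iso_of {a b a' b' : MvPolynomial (Fin 4) R} {ψ : Cox a b ≃ₐ[R] Cox a' b'}
    {π : Equiv.Perm (Fin 4)} {l : Fin 4 → R}
    (hl : ∀ i, ψ (AdjoinRoot.of _ (X i)) = AdjoinRoot.of _ (C (l i) * X (π i)))
    (p : MvPolynomial (Fin 4) R) :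
    ψ (AdjoinRoot.of _ p) = AdjoinRoot.of _ (cc π l p) := by
  have : ((ψ : Cox a b →+* Cox a' b').comp (AdjoinRoot.of _)) =
      (AdjoinRoot.of _).comp (cc π l : MvPolynomial (Fin 4) R →+* MvPolynomial (Fin 4) R) := by
    apply MvPolynomial.ringHom_ext
    · intro r
      simp only [RingHom.coe_comp, RingHom.coe_coe, Function.comp_apply]
      have e1 : AdjoinRoot.of (Polynomial.X ^ 2 + Polynomial.C a * Polynomial.X +
          Polynomial.C b) (C r) = algebraMap R (Cox a b) r := rfl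
      have e2 : cc π l (C r) = C r := (cc π l).commutes r
      rw [e1, e2, ψ.commutes]
      rfl
    · intro i
      simp only [RingHom.coe_comp, RingHom.coe_coe, Function.comp_apply]
      rw [hl]
      congr 1
      simp [cc]
  exact congrArg (fun f => f p) this

theorem expl_of_iso {m : ℕ} (hm : 1 ≤ m) {a b a' b' : MvPolynomial (Fin 4) R}
    (θ : (ℤ × ℤ × ZMod 2) ≃+ (ℤ × ℤ × ZMod 2)) (ψ : Cox a b ≃ₐ[R] Cox a' b')
    (h : ∀ γ x, x ∈ piece m a b γ ↔ ψ x ∈ piece m a' b' (θ γ)) :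
    Expl m a b a' b' := by
  rcases subsingleton_or_nontrivial R with hR | hR
  · exact ⟨1, fun _ => 1, 1, 0, by decide, fun _ => isUnit_one, isUnit_one,
      isWeightedHomogeneous_zero _ _ _, Subsingleton.elim _ _, Subsingleton.elim _ _⟩
  have h' : ∀ γ x, x ∈ piece m a' b' γ ↔ ψ.symm x ∈ piece m a b (θ.symm γ) := by
    intro γ x
    rw [h, ψ.apply_symm_apply, θ.apply_symm_apply]
  have hC : ∀ γ, inC γ ↔ inC (θ γ) := by
    intro γ
    rw [← piece_ne hm a b, ← piece_ne hm a' b']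
    constructor
    · rintro ⟨x, hx, hx0⟩
      exact ⟨ψ x, (h _ _).mp hx, by simpa using hx0⟩
    · rintro ⟨x, hx, hx0⟩
      refine ⟨ψ.symm x, ?_, by simpa using hx0⟩
      rw [h, ψ.apply_symm_apply]; exact hx
  obtain ⟨π, hgood, hπ⟩ := theta_perm θ hC
  have hπ' : ∀ i, θ.symm (wt i) = wt (π⁻¹ i) := by
    intro i
    rw [AddEquiv.symm_apply_eq, hπ]
    simp
  have hz := theta_zdeg (m := m) hgood hπ
  have hz' : θ.symm (zdeg m) = zdeg m := by rw [AddEquiv.symm_apply_eq, hz]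
  choose l hl using iso_X hm h hπ
  choose l' hl' using iso_X hm h' hπ'
  obtain ⟨g, μ, hg, hμ⟩ := iso_root h hz
  obtain ⟨g', μ', hg', hμ'⟩ := iso_root h' hz'
  have hof := iso_of hl
  have hof' := iso_of hl'
  have hunit : ∀ i, IsUnit (l i) := by
    intro i
    have e := ψ.symm_apply_apply (AdjoinRoot.of _ (X i))
    rw [hl, hof'] at e
    have e' := cox_of_inj e
    have e2 : cc π⁻¹ l' (C (l i) * X (π i)) = C (l i * l' (π i)) * X i := by
      have e0 : π⁻¹ (π i) = i := by simp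
      simp only [cc, map_mul, aeval_X, aeval_C, e0]
      simp only [MvPolynomial.algebraMap_eq]
      ring
    rw [e2] at e'
    have e3 := congrArg (coeff (Finsupp.single i 1)) e'
    rw [coeff_C_mul, coeff_X] at e3
    simp at e3
    exact IsUnit.of_mul_eq_one _ e3
  have hμunit : IsUnit μ := by
    have e := ψ.symm_apply_apply (AdjoinRoot.root _)
    rw [hμ] at e
    simp only [nf, map_add, map_mul, hof', hμ'] at e
    have e2 : (AdjoinRoot.root (Polynomial.X ^ 2 + Polynomial.C a * Polynomial.X +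
      Polynomial.C b)) = nf a b 0 1 := by simp [nf]
    have e3 : (AdjoinRoot.of (Polynomial.X ^ 2 + Polynomial.C a * Polynomial.X +
      Polynomial.C b)) (cc π⁻¹ l' g) + (AdjoinRoot.of (Polynomial.X ^ 2 +
      Polynomial.C a * Polynomial.X + Polynomial.C b)) (cc π⁻¹ l' (C μ)) *
      ((AdjoinRoot.of (Polynomial.X ^ 2 + Polynomial.C a * Polynomial.X +
      Polynomial.C b)) g' + (AdjoinRoot.of (Polynomial.X ^ 2 + Polynomial.C a * Polynomial.X +
      Polynomial.C b)) (C μ') * AdjoinRoot.root (Polynomial.X ^ 2 +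
      Polynomial.C a * Polynomial.X + Polynomial.C b)) =
      nf a b (cc π⁻¹ l' g + cc π⁻¹ l' (C μ) * g') (cc π⁻¹ l' (C μ) * C μ') := by
      simp only [nf, map_add, map_mul]
      ring
    rw [e3, e2] at e
    have e4 := (nf_inj e).2
    have e5 : cc π⁻¹ l' (C μ) = C μ := (cc π⁻¹ l').commutes μ
    rw [e5, ← C_mul] at e4
    have e6 := congrArg (coeff 0) e4
    simp at e6
    exact IsUnit.of_mul_eq_one _ e6
  have hrel := root_sq a b
  have hrel' := congrArg ψ hrel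
  rw [map_pow, hμ] at hrel'
  simp only [nf, map_add, map_mul, hof, hμ] at hrel'
  have hr2 := root_sq a' b'
  simp only [nf, map_neg] at hr2
  have key : nf a' b' (g ^ 2 - C μ ^ 2 * b') (2 * g * C μ - C μ ^ 2 * a') =
      nf a' b' (- cc π l b - cc π l a * g) (- cc π l a * C μ) := by
    simp only [nf, map_mul, map_neg, map_sub, map_pow, map_ofNat] at hrel' hr2 ⊢
    linear_combination hrel' - (AdjoinRoot.of _ (C μ)) ^ 2 * hr2
  obtain ⟨k1, k2⟩ := nf_inj key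
  refine ⟨π, l, μ, g, hgood, hunit, hμunit, hg, ?_, ?_⟩
  · obtain ⟨ν, hν⟩ := hμunit.exists_left_inv
    have : C ν * C μ = (1 : MvPolynomial (Fin 4) R) := by rw [← C_mul, hν, C_1]
    linear_combination (-C ν) * k2 + (2 * g + cc π l a - C μ * a') * this
  · linear_combination (-1 : MvPolynomial (Fin 4) R) * k1

end Pool.Agent.Helper190_CoarseTwo
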