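import Pool.Agent.Helper190_CoarseTwo.Weights

open MvPolynomial

noncomputable section

namespace Pool.Agent.Helper190_CoarseTwo

variable {R : Type} [CommRing R]

lemma quad_monic (a b : MvPolynomial (Fin 4) R) :
    (Polynomial.X ^ 2 + Polynomial.C a * Polynomial.X + Polynomial.C b).Monic := by
  rw [add_assoc]
  exact Polynomial.monic_X_pow_add (lt_of_le_of_lt Polynomial.degree_linear_le (by norm_num))

/-- the normal form -/
def nf (a b p q : MvPolynomial (Fin 4) R) : Cox a b :=
  AdjoinRoot.of _ p + AdjoinRoot.of _ q * AdjoinRoot.root _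

lemma nf_surj (a b : MvPolynomial (Fin 4) R) (x : Cox a b) : ∃ p q, x = nf a b p q := by
  obtain ⟨g, rfl⟩ := AdjoinRoot.mk_surjective x
  rcases subsingleton_or_nontrivial R with hR | hR
  · exact ⟨0, 0, by
      have : Subsingleton (Polynomial (MvPolynomial (Fin 4) R)) := inferInstance
      rw [Subsingleton.elim g 0]; simp [nf]⟩
  set f := (Polynomial.X ^ 2 + Polynomial.C a * Polynomial.X + Polynomial.C b) with hf
  have hm : f.Monic := quad_monic a b
  have hdeg : f.degree = 2 := by
    rw [hf, add_assoc, Polynomial.degree_add_eq_left_of_degree_lt]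
    · exact Polynomial.degree_X_pow 2
    · rw [Polynomial.degree_X_pow]
      exact lt_of_le_of_lt Polynomial.degree_linear_le (by norm_num)
  have h1 : AdjoinRoot.mk f g = AdjoinRoot.mk f (g %ₘ f) := by
    conv_lhs => rw [← Polynomial.modByMonic_add_div g f]
    rw [map_add, map_mul, AdjoinRoot.mk_self, zero_mul, add_zero]
  have h2 : (g %ₘ f).degree < 2 := by
    rw [← hdeg]; exact Polynomial.degree_modByMonic_lt g hm
  have h3 : (g %ₘ f) = Polynomial.C ((g %ₘ f).coeff 1) * Polynomial.X +
      Polynomial.C ((g %ₘ f).coeff 0) := by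
    apply Polynomial.eq_X_add_C_of_degree_le_one
    rw [Polynomial.degree_le_iff_coeff_zero]
    intro n hn
    have hn' : 2 ≤ n := by
      have : 1 < n := by exact_mod_cast hn
      omega
    exact (Polynomial.degree_lt_iff_coeff_zero _ 2).mp (by exact_mod_cast h2) n hn'
  refine ⟨(g %ₘ f).coeff 0, (g %ₘ f).coeff 1, ?_⟩
  rw [h1]
  conv_lhs => rw [h3]
  rw [map_add, map_mul, nf, add_comm]
  rfl

lemma nf_inj {a b p q p' q' : MvPolynomial (Fin 4) R} (h : nf a b p q = nf a b p' q') :
    p = p' ∧ q = q' := by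
  rcases subsingleton_or_nontrivial R with hR | hR
  · exact ⟨Subsingleton.elim _ _, Subsingleton.elim _ _⟩
  set f := (Polynomial.X ^ 2 + Polynomial.C a * Polynomial.X + Polynomial.C b) with hf
  have hm : f.Monic := quad_monic a b
  have hdeg : f.degree = 2 := by
    rw [hf, add_assoc, Polynomial.degree_add_eq_left_of_degree_lt]
    · exact Polynomial.degree_X_pow 2
    · rw [Polynomial.degree_X_pow]
      exact lt_of_le_of_lt Polynomial.degree_linear_le (by norm_num)
  have h1 : AdjoinRoot.mk f (Polynomial.C (q - q') * Polynomial.X + Polynomial.C (p - p')) = 0 := by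
    have : AdjoinRoot.mk f (Polynomial.C (q - q') * Polynomial.X + Polynomial.C (p - p')) =
        nf a b p q - nf a b p' q' := by
      simp only [nf, map_add, map_mul, map_sub, ← AdjoinRoot.mk_C, AdjoinRoot.mk_X]
      ring
    rw [this, h, sub_self]
  rw [AdjoinRoot.mk_eq_zero] at h1
  have h2 : Polynomial.C (q - q') * Polynomial.X + Polynomial.C (p - p') = 0 := by
    by_contra h0
    refine hm.not_dvd_of_degree_lt h0 ?_ h1
    rw [hdeg]
    exact lt_of_le_of_lt Polynomial.degree_linear_le (by norm_num)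
  have h3 := congrArg (fun r => Polynomial.coeff r 0) h2
  have h4 := congrArg (fun r => Polynomial.coeff r 1) h2
  simp at h3 h4
  exact ⟨sub_eq_zero.mp h3, sub_eq_zero.mp h4⟩

lemma root_sq (a b : MvPolynomial (Fin 4) R) :
    (AdjoinRoot.root (Polynomial.X ^ 2 + Polynomial.C a * Polynomial.X + Polynomial.C b)) ^ 2 =
      nf a b (-b) (-a) := by
  have h := AdjoinRoot.mk_self
    (f := (Polynomial.X ^ 2 + Polynomial.C a * Polynomial.X + Polynomial.C b))
  simp only [map_add, map_mul, map_pow, AdjoinRoot.mk_C, AdjoinRoot.mk_X] at h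
  simp only [nf, map_neg]
  linear_combination h

lemma mem_piece {m : ℕ} {a b : MvPolynomial (Fin 4) R} {γ : ℤ × ℤ × ZMod 2} {x : Cox a b} :
    x ∈ piece m a b γ ↔ ∃ p q : MvPolynomial (Fin 4) R, p.IsWeightedHomogeneous wt γ ∧
    q.IsWeightedHomogeneous wt (γ - zdeg m) ∧ x = nf a b p q := Iff.rfl

end Pool.Agent.Helper190_CoarseTwo
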