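import Pool.Agent.Helper190_CoarseTwo.NormalForm

open MvPolynomial

noncomputable section

namespace Pool.Agent.Helper190_CoarseTwo

variable {R : Type} [CommRing R]

/-- degrees of nonzero homogeneous elements -/
def inC (γ : ℤ × ℤ × ZMod 2) : Prop := 0 ≤ γ.1 ∧ 0 ≤ γ.2.1 ∧ γ ≠ (0, 0, 1)

lemma zmod_two_cases (ε : ZMod 2) : ε = 0 ∨ ε = 1 := by
  revert ε; decide

lemma piece_ne {m : ℕ} (hm : 1 ≤ m) [Nontrivial R] (a b : MvPolynomial (Fin 4) R)
    (γ : ℤ × ℤ × ZMod 2) : (∃ x ∈ piece m a b γ, x ≠ 0) ↔ inC γ := by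
  constructor
  · rintro ⟨x, hx, hx0⟩
    obtain ⟨p, q, hp, hq, rfl⟩ := mem_piece.mp hx
    by_cases hp0 : p = 0
    · by_cases hq0 : q = 0
      · exact absurd (by simp [nf, hp0, hq0]) hx0
      · have h := hom_neg hq
        obtain ⟨γ1, γ2, γ3⟩ := γ
        simp only [zdeg, Prod.mk_sub_mk] at h
        have h1 : ¬ (γ1 - 2 * (m : ℤ) < 0 ∨ γ2 - 2 * (m : ℤ) < 0) := fun h' => hq0 (h h')
        refine ⟨by simp only; omega, by simp only; omega, ?_⟩
        intro h2
        simp only [Prod.mk.injEq] at h2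
        omega
    · refine ⟨?_, ?_, ?_⟩
      · by_contra h; exact hp0 (hom_neg hp (Or.inl (by omega)))
      · by_contra h; exact hp0 (hom_neg hp (Or.inr (by omega)))
      · rintro rfl; exact hp0 (hom_parity_zero hp)
  · rintro ⟨h1, h2, h3⟩
    obtain ⟨γ1, γ2, γ3⟩ := γ
    simp only at h1 h2
    obtain ⟨n1, rfl⟩ := Int.eq_ofNat_of_zero_le h1
    obtain ⟨n2, rfl⟩ := Int.eq_ofNat_of_zero_le h2
    have key : ∃ d : Fin 4 →₀ ℕ, Finsupp.weight wt d = ((n1 : ℤ), (n2 : ℤ), γ3) := by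
      simp only [weight_wt, Prod.mk.injEq]
      rcases zmod_two_cases γ3 with rfl | rfl
      · exact ⟨ex n1 0 n2 0, by simp⟩
      · rcases Nat.eq_zero_or_pos n1 with rfl | hn1
        · rcases Nat.eq_zero_or_pos n2 with rfl | hn2
          · simp at h3
          · refine ⟨ex 0 0 (n2 - 1) 1, ?_⟩
            simp; omega
        · refine ⟨ex (n1 - 1) 1 n2 0, ?_⟩
          simp; omega
    obtain ⟨d, hd⟩ := key
    refine ⟨nf a b (monomial d 1) 0, ⟨monomial d 1, 0, ?_, isWeightedHomogeneous_zero _ _ _, rfl⟩,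
      ?_⟩
    · exact isWeightedHomogeneous_monomial _ _ _ hd
    · intro h
      have h0 : (0 : Cox a b) = nf a b 0 0 := by simp [nf]
      rw [h0] at h
      have := (nf_inj h).1
      rw [monomial_eq_zero] at this
      exact one_ne_zero this

lemma theta_expand (θ : (ℤ × ℤ × ZMod 2) →+ (ℤ × ℤ × ZMod 2)) (p q : ℤ) (ε : ZMod 2) :
    θ (p, q, ε) = p • θ (1, 0, 0) + q • θ (0, 1, 0) + ε.val • θ (0, 0, 1) := by
  rw [← map_zsmul, ← map_zsmul, ← map_nsmul, ← map_add, ← map_add]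
  congr 1
  rcases zmod_two_cases ε with rfl | rfl
  · simp
  · refine Prod.ext ?_ (Prod.ext ?_ ?_)
    · simp
    · simp
    · have : (1 : ZMod 2).val = 1 := rfl
      simp [this]

lemma theta_tors (θ : (ℤ × ℤ × ZMod 2) ≃+ (ℤ × ℤ × ZMod 2)) : θ (0, 0, 1) = (0, 0, 1) := by
  have h : 2 • θ (0, 0, 1) = 0 := by
    rw [← map_nsmul]
    have : 2 • ((0 : ℤ), (0 : ℤ), (1 : ZMod 2)) = 0 := by
      refine Prod.ext ?_ (Prod.ext ?_ ?_)
      · simp
      · simp
      · decide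
    rw [this, map_zero]
  have hne : θ (0, 0, 1) ≠ 0 := by
    intro h0
    rw [map_eq_zero_iff θ θ.injective] at h0
    simp at h0
  generalize hg : θ (0, 0, 1) = g at h hne
  obtain ⟨A, B, ε⟩ := g
  have h1 : 2 • A = 0 := congrArg Prod.fst h
  have h2 : 2 • B = 0 := congrArg (fun x => x.2.1) h
  have hA : A = 0 := by simpa using h1
  have hB : B = 0 := by simpa using h2
  subst hA hB
  rcases zmod_two_cases ε with rfl | rfl
  · exact absurd rfl hne
  · rfl

lemma nonneg_inv {A B C D A' B' C' D' : ℤ} (hA : 0 ≤ A) (hB : 0 ≤ B) (hC : 0 ≤ C) (hD : 0 ≤ D)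
    (hA' : 0 ≤ A') (hB' : 0 ≤ B') (hC' : 0 ≤ C') (hD' : 0 ≤ D')
    (e1 : A * A' + B * C' = 1) (e2 : A * B' + B * D' = 0)
    (e3 : C * A' + D * C' = 0) (e4 : C * B' + D * D' = 1) :
    (A = 1 ∧ B = 0 ∧ C = 0 ∧ D = 1) ∨ (A = 0 ∧ B = 1 ∧ C = 1 ∧ D = 0) := by
  have p1 := mul_nonneg hA hA'
  have p2 := mul_nonneg hB hC'
  have p3 := mul_nonneg hA hB'
  have p4 := mul_nonneg hB hD'
  have p5 := mul_nonneg hC hA'
  have p6 := mul_nonneg hD hC'
  have p7 := mul_nonneg hC hB'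
  have p8 := mul_nonneg hD hD'
  have q3 : A * B' = 0 := by omega
  have q4 : B * D' = 0 := by omega
  have q5 : C * A' = 0 := by omega
  have q6 : D * C' = 0 := by omega
  rcases (by omega : A * A' = 1 ∨ B * C' = 1) with h | h
  · have h1 : A = 1 := by
      rcases Int.mul_eq_one_iff_eq_one_or_neg_one.mp h with ⟨h1, h2⟩ | ⟨h1, h2⟩ <;> omega
    have h1' : A' = 1 := by
      rcases Int.mul_eq_one_iff_eq_one_or_neg_one.mp h with ⟨h1, h2⟩ | ⟨h1, h2⟩ <;> omega
    subst h1 h1'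
    have hB'0 : B' = 0 := by simpa using q3
    have hC0 : C = 0 := by simpa using q5
    subst hB'0 hC0
    have h8 : D * D' = 1 := by omega
    have hD1 : D = 1 := by
      rcases Int.mul_eq_one_iff_eq_one_or_neg_one.mp h8 with ⟨h1, h2⟩ | ⟨h1, h2⟩ <;> omega
    have hD1' : D' = 1 := by
      rcases Int.mul_eq_one_iff_eq_one_or_neg_one.mp h8 with ⟨h1, h2⟩ | ⟨h1, h2⟩ <;> omega
    subst hD1 hD1'
    have hB0 : B = 0 := by simpa using q4
    exact Or.inl ⟨rfl, hB0, rfl, rfl⟩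
  · have h1 : B = 1 := by
      rcases Int.mul_eq_one_iff_eq_one_or_neg_one.mp h with ⟨h1, h2⟩ | ⟨h1, h2⟩ <;> omega
    have h1' : C' = 1 := by
      rcases Int.mul_eq_one_iff_eq_one_or_neg_one.mp h with ⟨h1, h2⟩ | ⟨h1, h2⟩ <;> omega
    subst h1 h1'
    have hD'0 : D' = 0 := by simpa using q4
    have hD0 : D = 0 := by simpa using q6
    subst hD'0 hD0
    have h8 : C * B' = 1 := by omega
    have hC1 : C = 1 := by
      rcases Int.mul_eq_one_iff_eq_one_or_neg_one.mp h8 with ⟨h1, h2⟩ | ⟨h1, h2⟩ <;> omega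
    have hB1' : B' = 1 := by
      rcases Int.mul_eq_one_iff_eq_one_or_neg_one.mp h8 with ⟨h1, h2⟩ | ⟨h1, h2⟩ <;> omega
    subst hC1 hB1'
    have hA0 : A = 0 := by simpa using q3
    exact Or.inr ⟨hA0, rfl, rfl, rfl⟩

/-- the eight permutations of the coordinates -/
def good (π : Equiv.Perm (Fin 4)) : Prop :=
  (∀ i, (π i).val / 2 = i.val / 2) ∨ (∀ i, (π i).val / 2 ≠ i.val / 2)

instance (π : Equiv.Perm (Fin 4)) : Decidable (good π) := by unfold good; infer_instance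

lemma wt_inj : Function.Injective wt := by
  intro i j h
  fin_cases i <;> fin_cases j <;> first | rfl | simp [wt] at h

lemma theta_perm (θ : (ℤ × ℤ × ZMod 2) ≃+ (ℤ × ℤ × ZMod 2)) (hC : ∀ γ, inC γ ↔ inC (θ γ)) :
    ∃ π : Equiv.Perm (Fin 4), good π ∧ ∀ i, θ (wt i) = wt (π i) := by
  have ht := theta_tors θ
  have ht' := theta_tors θ.symm
  have i1 : inC (θ (1, 0, 0)) := (hC _).mp ⟨by simp, by simp, by simp⟩
  have i2 : inC (θ (0, 1, 0)) := (hC _).mp ⟨by simp, by simp, by simp⟩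
  have i3 : inC (θ.symm (1, 0, 0)) := by
    rw [hC, θ.apply_symm_apply]; exact ⟨by simp, by simp, by simp⟩
  have i4 : inC (θ.symm (0, 1, 0)) := by
    rw [hC, θ.apply_symm_apply]; exact ⟨by simp, by simp, by simp⟩
  rcases hA : θ (1, 0, 0) with ⟨A, B, ε⟩
  rcases hCD : θ (0, 1, 0) with ⟨C, D, δ⟩
  rcases hA' : θ.symm (1, 0, 0) with ⟨A', B', ε'⟩
  rcases hCD' : θ.symm (0, 1, 0) with ⟨C', D', δ'⟩
  have k1 := θ.symm_apply_apply (1, 0, 0)
  have k2 := θ.symm_apply_apply (0, 1, 0)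
  rw [hA] at k1 i1
  rw [hCD] at k2 i2
  rw [hA'] at i3
  rw [hCD'] at i4
  have x1 := theta_expand θ.symm.toAddMonoidHom A B ε
  have x2 := theta_expand θ.symm.toAddMonoidHom C D δ
  simp only [AddEquiv.toAddMonoidHom_eq_coe, AddMonoidHom.coe_coe, hA', hCD', ht'] at x1 x2
  rw [k1] at x1
  rw [k2] at x2
  have e1 := congrArg Prod.fst x1
  have e2 := congrArg (fun x => x.2.1) x1
  have e3 := congrArg Prod.fst x2
  have e4 := congrArg (fun x => x.2.1) x2
  simp at e1 e2 e3 e4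
  have hfin := nonneg_inv i1.1 i1.2.1 i2.1 i2.2.1 i3.1 i3.2.1 i4.1 i4.2.1
    e1.symm e2.symm e3.symm e4.symm
  have w0 : θ (wt 0) = (A, B, ε) := hA
  have w2 : θ (wt 2) = (C, D, δ) := hCD
  have w1 : θ (wt 1) = (A, B, ε + 1) := by
    have : wt 1 = (1, 0, 0) + (0, 0, 1) := by simp [wt]
    rw [this, map_add, ht, hA]; simp
  have w3 : θ (wt 3) = (C, D, δ + 1) := by
    have : wt 3 = (0, 1, 0) + (0, 0, 1) := by simp [wt]
    rw [this, map_add, ht, hCD]; simp
  rcases hfin with ⟨rfl, rfl, rfl, rfl⟩ | ⟨rfl, rfl, rfl, rfl⟩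
  · rcases zmod_two_cases ε with rfl | rfl <;> rcases zmod_two_cases δ with rfl | rfl
    · refine ⟨1, by decide, ?_⟩
      intro i; fin_cases i
      · exact w0
      · exact w1
      · exact w2
      · exact w3
    · refine ⟨Equiv.swap 2 3, by decide, ?_⟩
      intro i; fin_cases i
      · exact w0
      · exact w1
      · exact w2
      · exact w3
    · refine ⟨Equiv.swap 0 1, by decide, ?_⟩
      intro i; fin_cases i
      · exact w0
      · exact w1
      · exact w2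
      · exact w3
    · refine ⟨Equiv.swap 0 1 * Equiv.swap 2 3, by decide, ?_⟩
      intro i; fin_cases i
      · exact w0
      · exact w1
      · exact w2
      · exact w3
  · rcases zmod_two_cases ε with rfl | rfl <;> rcases zmod_two_cases δ with rfl | rfl
    · refine ⟨Equiv.swap 0 2 * Equiv.swap 1 3, by decide, ?_⟩
      intro i; fin_cases i
      · exact w0
      · exact w1
      · exact w2
      · exact w3
    · refine ⟨Equiv.swap 0 1 * (Equiv.swap 0 2 * Equiv.swap 1 3), by decide, ?_⟩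
      intro i; fin_cases i
      · exact w0
      · exact w1
      · exact w2
      · exact w3
    · refine ⟨Equiv.swap 2 3 * (Equiv.swap 0 2 * Equiv.swap 1 3), by decide, ?_⟩
      intro i; fin_cases i
      · exact w0
      · exact w1
      · exact w2
      · exact w3
    · refine ⟨Equiv.swap 0 1 * Equiv.swap 2 3 * (Equiv.swap 0 2 * Equiv.swap 1 3), by decide, ?_⟩
      intro i; fin_cases i
      · exact w0
      · exact w1
      · exact w2
      · exact w3

end Pool.Agent.Helper190_CoarseTwo
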