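import Pool.Agent.Helper190_CoarseTwo.Defs

open MvPolynomial

noncomputable section

namespace Pool.Agent.Helper190_CoarseTwo

/-- the exponent vector `(e₀, e₁, e₂, e₃)` -/
def ex (e₀ e₁ e₂ e₃ : ℕ) : Fin 4 →₀ ℕ := Finsupp.equivFunOnFinite.symm ![e₀, e₁, e₂, e₃]

@[simp] lemma ex_zero (e₀ e₁ e₂ e₃ : ℕ) : ex e₀ e₁ e₂ e₃ 0 = e₀ := rfl
@[simp] lemma ex_one (e₀ e₁ e₂ e₃ : ℕ) : ex e₀ e₁ e₂ e₃ 1 = e₁ := rfl
@[simp] lemma ex_two (e₀ e₁ e₂ e₃ : ℕ) : ex e₀ e₁ e₂ e₃ 2 = e₂ := rfl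
@[simp] lemma ex_three (e₀ e₁ e₂ e₃ : ℕ) : ex e₀ e₁ e₂ e₃ 3 = e₃ := rfl

lemma eq_ex (d : Fin 4 →₀ ℕ) : d = ex (d 0) (d 1) (d 2) (d 3) := by
  ext i
  fin_cases i <;> rfl

lemma ext4 {d e : Fin 4 →₀ ℕ} (h0 : d 0 = e 0) (h1 : d 1 = e 1) (h2 : d 2 = e 2)
    (h3 : d 3 = e 3) : d = e := by
  rw [eq_ex d, eq_ex e, h0, h1, h2, h3]

lemma weight_wt (d : Fin 4 →₀ ℕ) :
    Finsupp.weight wt d = ((d 0 : ℤ) + d 1, (d 2 : ℤ) + d 3, (d 1 : ZMod 2) + d 3) := by
  rw [Finsupp.weight_apply, Finsupp.sum_fintype _ _ (by simp)]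
  simp only [Fin.sum_univ_four]
  refine Prod.ext ?_ (Prod.ext ?_ ?_) <;> simp [wt]

variable {R : Type} [CommRing R]

/-- homogeneous of degree `(p, q, ε)` -/
lemma hom_iff {a : MvPolynomial (Fin 4) R} {p q : ℤ} {ε : ZMod 2} :
    a.IsWeightedHomogeneous wt (p, q, ε) ↔ ∀ d, coeff d a ≠ 0 →
      (d 0 : ℤ) + d 1 = p ∧ (d 2 : ℤ) + d 3 = q ∧ (d 1 : ZMod 2) + d 3 = ε := by
  simp only [IsWeightedHomogeneous, weight_wt, Prod.mk.injEq]

lemma hom_neg {a : MvPolynomial (Fin 4) R} {γ : ℤ × ℤ × ZMod 2}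
    (ha : a.IsWeightedHomogeneous wt γ) (hγ : γ.1 < 0 ∨ γ.2.1 < 0) : a = 0 := by
  obtain ⟨p, q, ε⟩ := γ
  rw [hom_iff] at ha
  ext d
  rw [coeff_zero]
  by_contra h
  obtain ⟨h1, h2, h3⟩ := ha d h
  simp only at hγ
  omega

lemma hom_zero {a : MvPolynomial (Fin 4) R}
    (ha : a.IsWeightedHomogeneous wt 0) : a = C (coeff 0 a) := by
  have ha' : a.IsWeightedHomogeneous wt (0, 0, 0) := ha
  rw [hom_iff] at ha'
  ext d
  rw [coeff_C]
  split_ifs with hd
  · rw [hd]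
  · by_contra h
    obtain ⟨h1, h2, h3⟩ := ha' d h
    apply hd
    apply ext4 <;> simp <;> omega

lemma hom_parity_zero {a : MvPolynomial (Fin 4) R}
    (ha : a.IsWeightedHomogeneous wt (0, 0, 1)) : a = 0 := by
  rw [hom_iff] at ha
  ext d
  rw [coeff_zero]
  by_contra h
  obtain ⟨h1, h2, h3⟩ := ha d h
  have e1 : d 1 = 0 := by omega
  have e3 : d 3 = 0 := by omega
  rw [e1, e3] at h3
  simp at h3

lemma hom_wt {a : MvPolynomial (Fin 4) R} (j : Fin 4)
    (ha : a.IsWeightedHomogeneous wt (wt j)) : a = C (coeff (Finsupp.single j 1) a) * X j := by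
  ext d
  rw [coeff_C_mul, coeff_X]
  split_ifs with hd
  · rw [hd, mul_one]
  · rw [mul_zero]
    by_contra h
    have := ha h
    rw [weight_wt] at this
    apply hd
    fin_cases j
    · simp only [wt, Prod.mk.injEq, Fin.isValue, Fin.zero_eta, Matrix.cons_val_zero] at this
      obtain ⟨h1, h2, h3⟩ := this
      have e2 : d 2 = 0 := by omega
      have e3 : d 3 = 0 := by omega
      have e1 : d 1 = 0 := by
        rcases (by omega : d 1 = 0 ∨ d 1 = 1) with h | h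
        · exact h
        · rw [h, e3] at h3; simp at h3
      apply ext4 <;> simp <;> omega
    · simp only [wt, Prod.mk.injEq, Fin.isValue, Fin.mk_one, Matrix.cons_val_one,
        Matrix.cons_val_zero] at this
      obtain ⟨h1, h2, h3⟩ := this
      have e2 : d 2 = 0 := by omega
      have e3 : d 3 = 0 := by omega
      have e1 : d 1 = 1 := by
        rcases (by omega : d 1 = 0 ∨ d 1 = 1) with h | h
        · rw [h, e3] at h3; simp at h3
        · exact h
      apply ext4 <;> simp <;> omega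
    · simp only [wt, Prod.mk.injEq, Fin.isValue, Fin.reduceFinMk, Matrix.cons_val] at this
      obtain ⟨h1, h2, h3⟩ := this
      have e2 : d 1 = 0 := by omega
      have e0 : d 0 = 0 := by omega
      have e1 : d 3 = 0 := by
        rcases (by omega : d 3 = 0 ∨ d 3 = 1) with h | h
        · exact h
        · rw [h, e2] at h3; simp at h3
      apply ext4 <;> simp <;> omega
    · simp only [wt, Prod.mk.injEq, Fin.isValue, Fin.reduceFinMk, Matrix.cons_val] at this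
      obtain ⟨h1, h2, h3⟩ := this
      have e2 : d 1 = 0 := by omega
      have e0 : d 0 = 0 := by omega
      have e1 : d 3 = 1 := by
        rcases (by omega : d 3 = 0 ∨ d 3 = 1) with h | h
        · rw [h, e2] at h3; simp at h3
        · exact h
      apply ext4 <;> simp <;> omega

end Pool.Agent.Helper190_CoarseTwo
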